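import Pool.Agent.H38.P4.Cal
import Pool.Agent.H14.P4.Stm

/-!
# The frames of a cell are close at the exact time
-/

set_option autoImplicit false

namespace Pool.P4O

open Finset Real MvPolynomial
open Pool.Agent.H49.Ent Pool.Agent.H32.Dense Pool.STK Pool.STAT Pool.MIC.Frm Pool.MIC7 Pool.FRM
open Pool.GSD Pool.P4

theorem exp_pow {C : ℝ} {a : ℕ} (z : ℕ) (h : C ≤ a) : exp (C * z) ≤ exp z ^ a := by
  rw [← Real.exp_nat_mul]
  exact Real.exp_le_exp.2 (mul_le_mul_of_nonneg_right h (Nat.cast_nonneg z))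

theorem lev_le {p q : ℕ} {s : ℝ} (h : (p : ℝ) ≤ q + s) (hs : 0 ≤ s) :
    (2 : ℝ) ^ p ≤ exp s * 2 ^ q := by
  rw [two_pow_exp, two_pow_exp, ← Real.exp_add]
  refine Real.exp_le_exp.2 ?_
  have h1 : 0 ≤ Real.log 2 := Real.log_nonneg (by norm_num)
  have h2 : Real.log 2 ≤ 1 := by
    have := Real.log_two_lt_d9
    linarith
  have h3 := mul_le_mul_of_nonneg_right h h1
  nlinarith

/-- **Closeness from norms.** -/
theorem cls_nrm (n K a : ℕ) : ∃ a' : ℕ, ∀ (E t : ℝ) (g : ℕ → ℕ) (P Q Q' : ℕ → PN),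
    1 ≤ E → TriN P → TriN Q → (∀ l, (P l).totalDegree ≤ K) → (∀ l, (Q l).totalDegree ≤ K) →
    (∀ l, 1 ≤ l → ∀ b, eval b (Q' l) = eval (Function.update b 0 t) (Q l)) →
    (∀ b : ℕ → ℝ, 2 ^ g 0 * |t - eval b (P 0)| ≤ E ^ a) →
    (∀ l, 1 ≤ l → l ≤ n → nrm g (1 / 2) (chr P (Q l - P l)) ≤ E ^ a / 2 ^ g l) →
    Cls n g (E ^ a') (fz t P) Q' := by
  obtain ⟨K₂, hK₂⟩ : ∃ K₂ : ℕ, K₂ = K * (K + 1) ^ n := ⟨_, rfl⟩
  refine ⟨a * K₂ + a, ?_⟩
  intro E t g P Q Q' hE hP hQ dP dQ hQ' h0 hn l hl1 hln b hb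
  have hp := pw1 hE a
  obtain ⟨b', hb'⟩ : ∃ b' : ℕ → ℝ, b' = Function.update b 0 t := ⟨_, rfl⟩
  have vQP : (Q l - P l).vars ⊆ range l := AdxRow.vars_sub_le (hQ l) (hP l)
  have vF : (chr P (Q l - P l)).vars ⊆ range l := chr_vars hP vQP
  have dF : (chr P (Q l - P l)).totalDegree ≤ K₂ := by
    refine (chr_deg (m := l) hP (fun i _ => dP i) vQP
      ((totalDegree_sub _ _).trans (max_le (dQ l) (dP l)))).trans ?_
    rw [hK₂]
    exact Nat.mul_le_mul_left K (Nat.pow_le_pow_right (show 0 < K + 1 by omega) hln)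
  have hz : ∀ k < l, |zs P b' k| ≤ E ^ a / 2 ^ g k := by
    intro k hk
    have e1 : zs P b' k = nat g P b' k / 2 ^ g k := by
      rw [nat_eq]
      field_simp
    rw [e1, abs_div, abs_of_pos (show (0 : ℝ) < 2 ^ g k by positivity)]
    refine div_le_div_of_nonneg_right ?_ (by positivity)
    rcases Nat.eq_zero_or_pos k with h1 | h1
    · rw [h1]
      unfold nat
      have e2 : b' 0 = t := by rw [hb', Function.update_self]
      rw [e2, abs_mul, abs_of_pos (show (0 : ℝ) < 2 ^ g 0 by positivity)]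
      exact h0 b'
    · have e2 := hb k hk
      rw [nat_fz g t P b h1, ← hb'] at e2
      exact e2.trans hp
  have key := eval_le_nrm vF dF g hp hz
  rw [chr_eval hP, map_sub] at key
  have e3 : eval b (fz t P l) - eval b (Q' l) = -(eval b' (Q l) - eval b' (P l)) := by
    rw [eval_fz t P b hl1, hQ' l hl1 b, ← hb']
    ring
  rw [e3, abs_neg]
  refine key.trans ?_
  rw [pow_add, pow_mul, mul_div_assoc]
  exact mul_le_mul_of_nonneg_left (hn l hl1 hln) (by positivity)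

theorem upd_upd (b : ℕ → ℝ) (t : ℝ) :
    Function.update (Function.update b 0 t) 0 t = Function.update b 0 t := by
  rw [Function.update_idem]

section cell

variable {D : NDat2} {n K K' J a₀ w₀ z M : ℕ} {lam gam : ℕ → ℝ} {κ C₁ C : ℝ} {q : D.Ω → ℝ}

/-- The visible labels and the line labels. -/
theorem cls_fr (hO : D.Ok2 n K J a₀ w₀ z M lam gam κ C₁ q) {i j : ℕ} (hi : i ≤ M) (hj : j ≤ M)
    {ω : D.Ω} (hω : 0 < q ω) :
    Cls n (D.g i j) 1 (fr D (i, j) ω) (fz (D.X ω 0) (D.Φ i j ω)) := by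
  intro l hl1 hln b hb
  unfold fr
  rw [eval_fz _ _ b hl1, eval_fz _ _ b hl1]
  refine hO.agr i hi j hj ω hω l hl1 hln _ ⟨?_, fun k hk1 hk2 => ?_⟩
  · rw [Function.update_self, sub_self, abs_zero]
    positivity
  · have h1 := hb k hk2
    unfold fr at h1
    rw [nat_fz _ _ _ _ hk1] at h1
    unfold nat at h1
    rw [abs_mul, abs_of_pos (show (0 : ℝ) < 2 ^ D.g i j k by positivity)] at h1
    rw [le_div_iff₀ (by positivity)]
    linarith

/-- The own frame and the visible labels. -/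
theorem cls_V (n K a : ℕ) : ∃ a' : ℕ, ∀ (D : NDat2) (M z : ℕ) (C : ℝ) (ω : D.Ω) (V : ℕ → PN),
    C ≤ a → (∀ i j x l, (D.G i j x l).totalDegree ≤ K) → (∀ i j x, TriN (D.G i j x)) → TriN V →
    (∀ l, (V l).totalDegree ≤ K) → (∀ l ≤ n, eval (D.X ω) (V l) = D.X ω l) →
    (∀ i < M, ∀ j < M, ∀ l ≤ n,
      nrm (D.g i j) (1 / 2) (chr V (fr D (i, j) ω l - V l)) ≤ exp (C * z) / 2 ^ D.g i j l) →
    ∀ i < M, ∀ j < M, Cls n (D.g i j) (exp z ^ a') (fz (D.X ω 0) V) (fr D (i, j) ω) := by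
  obtain ⟨a', h⟩ := cls_nrm n K a
  refine ⟨a', ?_⟩
  intro D M z C ω V hC dG tG tV dV hX hn i hi j hj
  have hE : 1 ≤ exp (z : ℝ) := Real.one_le_exp (Nat.cast_nonneg z)
  refine h (exp z) (D.X ω 0) (D.g i j) V (fr D (i, j) ω) (fr D (i, j) ω) hE tV
    (tri_fz (tG i j _) _) dV (fun l => deg_fz (dG i j _ l) _) (fun l hl b => ?_) (fun b => ?_)
    (fun l _ hln => ?_)
  · unfold fr
    rw [eval_fz _ _ b hl, eval_fz _ _ _ hl, upd_upd]
  · have e1 : eval b (V 0) = D.X ω 0 := by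
      rw [← hX 0 (Nat.zero_le _)]
      exact Pool.SYS35.eval_congr (tV 0) fun i hi => absurd hi (Nat.not_lt_zero _)
    rw [e1, sub_self, abs_zero, mul_zero]
    positivity
  · exact (hn i hi j hj l hln).trans (div_le_div_of_nonneg_right (exp_pow z hC) (by positivity))

/-- The closed frame and the line labels. -/
theorem cls_P (n K a : ℕ) : ∃ (a' : ℕ) (c₀ : ℝ), ∀ (D : NDat2) (K₀ J a₀ w₀ z M : ℕ)
    (lam gam : ℕ → ℝ) (κ C₁ C : ℝ) (q : D.Ω → ℝ) (ω : D.Ω) (P : ℕ → PN) (i j : ℕ), K₀ ≤ K →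
    c₀ ≤ exp z → C ≤ a → 0 ≤ C → D.Ok2 n K₀ J a₀ w₀ z M lam gam κ C₁ q → 0 < q ω → i ≤ M → j ≤ M →
    TriN P → (∀ l, (P l).totalDegree ≤ K) →
    (∀ l ≤ n, nrm (D.g i j) (1 / 2) (chr P (D.Φ i j ω l - P l)) ≤
      exp (C * z) / 2 ^ D.g i j l) →
    Cls n (D.g i j) (exp z ^ a') (fz (D.X ω 0) P) (fz (D.X ω 0) (D.Φ i j ω)) := by
  obtain ⟨a', h⟩ := cls_nrm n K (a + 1)
  refine ⟨a', 2, ?_⟩
  intro D K₀ J a₀ w₀ z M lam gam κ C₁ C q ω P i j hK hc hC hC0 hO hω hi hj tP dP hn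
  have hE : 1 ≤ exp (z : ℝ) := Real.one_le_exp (Nat.cast_nonneg z)
  have hCz : exp (C * z) ≤ exp z ^ a := exp_pow z hC
  refine h (exp z) (D.X ω 0) (D.g i j) P (D.Φ i j ω) _ hE tP (hO.P_tri i j _) dP
    (fun l => (hO.P_deg i j _ l).trans hK) (fun l hl b => eval_fz _ _ b hl) (fun b => ?_) (fun l _ hln => ?_)
  · have pg : (0 : ℝ) < 2 ^ D.g i j 0 := by positivity
    have e1 : eval b (P 0) = eval (D.X ω) (P 0) :=
      Pool.SYS35.eval_congr (tP 0) fun i hi => absurd hi (Nat.not_lt_zero _)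
    rw [e1]
    have e2 := hO.hgt i hi j hj ω hω 0 (Nat.zero_le _)
    unfold NDat2.rh at e2
    have e3 := hn 0 (Nat.zero_le _)
    have vF : (chr P (D.Φ i j ω 0 - P 0)).vars ⊆ range 0 :=
      chr_vars tP (AdxRow.vars_sub_le (hO.P_tri i j _ 0) (tP 0))
    have e4 := eval_le_nrm (B := 1) (b := zs P (D.X ω)) vF le_rfl (D.g i j) le_rfl
      (fun i hi => absurd hi (Nat.not_lt_zero _))
    rw [chr_eval tP, map_sub, one_pow, one_mul] at e4
    have e5 : |D.X ω 0 - eval (D.X ω) (P 0)| ≤ (1 + exp (C * z)) / 2 ^ D.g i j 0 := by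
      have e6 : D.X ω 0 - eval (D.X ω) (P 0) = (D.X ω 0 - eval (D.X ω) (D.Φ i j ω 0)) +
          (eval (D.X ω) (D.Φ i j ω 0) - eval (D.X ω) (P 0)) := by ring
      rw [e6, add_div]
      exact (abs_add_le _ _).trans (add_le_add e2 (e4.trans e3))
    rw [le_div_iff₀ pg] at e5
    have e7 : (1 : ℝ) ≤ exp (C * z) := Real.one_le_exp (mul_nonneg hC0 (Nat.cast_nonneg z))
    calc 2 ^ D.g i j 0 * |D.X ω 0 - eval (D.X ω) (P 0)| ≤ 1 + exp (C * z) := by linarith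
      _ ≤ 2 * exp z ^ a := by linarith
      _ ≤ exp z ^ (a + 1) := by
          rw [pow_succ, mul_comm]
          exact mul_le_mul_of_nonneg_left hc (by positivity)
  · exact (hn l hln).trans (div_le_div_of_nonneg_right (hCz.trans (pw hE (by omega)))
      (by positivity))

end cell

end Pool.P4O
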