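import Pool.Agent.H38.P4.Cel

/-!
# The labels at `R''` know the own slopes
-/

set_option autoImplicit false

namespace Pool.P4O

open Finset Real MvPolynomial
open Pool.STAT Pool.MIC.Frm Pool.MIC7 Pool.FRM

/-- **The labels at `R''` know the own slopes.** -/
theorem cel_d (n K a : ℕ) : ∃ (a' : ℕ) (c₀ : ℝ), ∀ (E t σ Y : ℝ) (g g₀ gR gS : ℕ → ℕ)
    (Sl : ℕ → Prop) (P V V' A A' B : ℕ → PN) (x x' : ℕ → ℝ), 1 ≤ E → c₀ ≤ E →
    Cel n K a E t σ Y g g₀ gR gS Sl P V A B x → Cel n K a E t σ Y g g₀ gR gS Sl P V' A' B x' →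
    ∀ u, 1 ≤ u → u ≤ n → ¬ Sl u → ∀ k, Sl k →
      |sS n Sl g P V u k - sS n Sl g P V' u k| ≤ E ^ a' / Y := by
  classical
  obtain ⟨a₁, c₁, h1⟩ := cls_nbr n K a
  obtain ⟨a₂, c₂, h2⟩ := cls_sym n K a
  obtain ⟨a₃, c₃, h3⟩ := cls_nbr n K a₂
  obtain ⟨a₄, c₄, h4⟩ := sheet n K a
  obtain ⟨a₅, c₅, h5⟩ := aff n K (a + a₁ + a₄)
  obtain ⟨a₆, c₆, h6⟩ := lc_far n K a₃
  obtain ⟨N, hN⟩ : ∃ N : ℕ, N = a₅ + (a₆ + a + a₄) + 2 := ⟨_, rfl⟩
  refine ⟨(a₅ + 1) * n + (N + 2), max (max (max c₁ c₂) (max c₃ c₄)) (max (max c₅ c₆) (n + 2)), ?_⟩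
  intro E t σ Y g g₀ gR gS Sl P V V' A A' B x x' hE hc hC hC' u hu1 hun hSu k hSk
  obtain ⟨hc1234, hc56⟩ := max_le_iff.1 hc
  obtain ⟨hc12, hc34⟩ := max_le_iff.1 hc1234
  obtain ⟨hc1, hc2⟩ := max_le_iff.1 hc12
  obtain ⟨hc3, hc4⟩ := max_le_iff.1 hc34
  obtain ⟨hc56', hcn⟩ := max_le_iff.1 hc56
  obtain ⟨hc5, hc6⟩ := max_le_iff.1 hc56'
  have hn0 : (0 : ℝ) ≤ n := Nat.cast_nonneg n
  have hE2 : 2 ≤ E := by linarith
  have hnE : (n : ℝ) ≤ E := by linarith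
  have hσ : 1 ≤ σ := hC.Y1.trans hC.Yσ
  have hY0 : 0 < Y := by linarith [hC.Y1]
  -- closeness
  have VV := h1 E t g P V V' hE hc1 hC.hP hC.hV hC'.hV hC.PV hC'.PV
  have VV0 := h1 E t g₀ P V V' hE hc1 hC.hP hC.hV hC'.hV hC.PV0 hC'.PV0
  have BV := h2 E t gS V B hE hc2 hC.hV hC.hB hC.VB
  have BV' := h2 E t gS V' B hE hc2 hC'.hV hC.hB hC'.VB
  have VVS := h3 E t gS B V V' hE hc3 hC.hB hC.hV hC'.hV BV BV'
  have m0 : ∀ {c : ℕ}, c ≤ a + a₁ + a₄ → E ^ c ≤ E ^ (a + a₁ + a₄) := fun h => pw hE h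
  have hlv := hC.lv.mono (by linarith) (m0 (show a ≤ a + a₁ + a₄ by omega))
  -- the approximations
  have AV := h5 E t σ g g₀ P V hE hc5 hσ hC.hP hC.hV (hC.PV.mono (m0 (by omega)))
    (hC.PV0.mono (m0 (by omega))) hlv
  have AV' := h5 E t σ g g₀ P V' hE hc5 hσ hC.hP hC'.hV (hC'.PV.mono (m0 (by omega)))
    (hC'.PV0.mono (m0 (by omega))) hlv
  have AW := h5 E t σ g g₀ V V' hE hc5 hσ hC.hV hC'.hV (VV.mono (m0 (by omega)))
    (VV0.mono (m0 (by omega))) hlv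
  have q1 : (1 : ℝ) ≤ E ^ a₅ := pw1 hE a₅
  have q2 : (1 : ℝ) ≤ E ^ (a₆ + a + a₄) := pw1 hE _
  -- one point
  have key : ∀ ζ : ℕ → ℝ, (∀ l, |ζ l| ≤ 1) → ∃ b : ℕ → ℝ,
      (∀ l, Sl l → nat g P b l = ζ l) ∧ ∀ u, 1 ≤ u → u ≤ n → ¬ Sl u →
      |nat g P b u - (lc0 g P V u + ∑ m ∈ Finset.Ico 1 u, lc g P V u m * nat g P b m)| ≤
        E ^ N / Y ∧
      |nat g P b u - ((lc0 g P V' u - lc0 g V V' u) +
        ∑ m ∈ Finset.Ico 1 u, lc g P V' u m * nat g P b m)| ≤ E ^ N / Y := by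
    intro ζ hζ
    obtain ⟨b, hb0, hbs, hbg⟩ := mkpt g Sl hC.hP hC.hV ζ
    have hbox := h4 E t g g Sl P V V hE hc4 hC.hP hC.hV hC.hV hC.PV
      (cls_self V (by positivity)) (fun l _ _ => ⟨fun _ => le_mul_of_one_le_left (by positivity)
        (pw1 hE a), fun _ => le_mul_of_one_le_left (by positivity) (pw1 hE a)⟩) b hb0
      (fun l h7 _ h8 => by
        rw [hbs l h7 h8]
        exact (hζ l).trans (pw1 hE a)) (fun l h7 _ h8 => hbg l h7 h8)
    refine ⟨b, fun l hl => hbs l (hC.hSl l hl).1 hl, fun u hu1 hun hSu => ?_⟩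
    have pg : (0 : ℝ) < 2 ^ g u := by positivity
    have bx : ∀ m, 1 ≤ m → m < u → |nat g P b m| ≤ E ^ (a + a₁ + a₄) := fun m h7 h8 =>
      (hbox m h7 (by omega)).1.trans (m0 (by omega))
    have bv : ∀ m, 1 ≤ m → m < u → |nat g V b m| ≤ E ^ (a + a₁ + a₄) := fun m h7 h8 =>
      (hbox m h7 (by omega)).2.trans (m0 (by omega))
    have e1 := (AV u hu1 hun).2.2 b hb0 bx
    have e2 := (AV' u hu1 hun).2.2 b hb0 bx
    have e3 := (AW u hu1 hun).2.2 b hb0 bv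
    have hbu := hbg u hu1 hSu
    have e4 : nat g P b u = 2 ^ g u * (eval b (V u) - eval b (P u)) := by
      unfold nat
      rw [← hbu]
    have e5 : nat g P b u = 2 ^ g u * (eval b (V' u) - eval b (P u)) -
        2 ^ g u * (eval b (V' u) - eval b (V u)) := by
      rw [e4]
      ring
    -- the far coefficients
    have e6 : |∑ m ∈ Finset.Ico 1 u, lc g V V' u m * nat g V b m| ≤
        E ^ (a₆ + a + a₄ + 1) / Y := by
      refine (Finset.abs_sum_le_sum_abs _ _).trans ?_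
      have e7 : ∀ m, 1 ≤ m → m < u → |lc g V V' u m * nat g V b m| ≤
          1 * (E ^ (a₆ + a + a₄) / Y) := by
        intro m hm1 hm2
        rw [one_mul]
        by_cases hSm : Sl m
        · rw [abs_mul]
          have e8 := h6 E t g gS V V' hE hc6 hC.hV hC'.hV VVS u hu1 hun m
          have e9 := hC.lSS u m hu1 hun hSu hm1 (by omega) hSm
          have e10 : |lc g V V' u m| ≤ E ^ a₆ * (E ^ a / Y) :=
            e8.trans (mul_le_mul_of_nonneg_left e9 (by positivity))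
          calc |lc g V V' u m| * |nat g V b m| ≤ E ^ a₆ * (E ^ a / Y) * E ^ a₄ :=
                mul_le_mul e10 (hbox m hm1 (by omega)).2 (abs_nonneg _) (by positivity)
            _ = E ^ (a₆ + a + a₄) / Y := by
                rw [pow_add, pow_add]
                ring
        · have e8 : nat g V b m = 0 := by
            unfold nat
            rw [← hbg m hm1 hSm, sub_self, mul_zero]
          rw [e8, mul_zero, abs_zero]
          positivity
      refine (sum_le hun (by positivity) zero_le_one e7).trans ?_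
      rw [mul_one, ← mul_div_assoc]
      refine div_le_div_of_nonneg_right ?_ hY0.le
      rw [pow_succ, mul_comm]
      exact mul_le_mul_of_nonneg_left hnE (by positivity)
    have e7 : E ^ a₅ / σ ≤ E ^ a₅ / Y := div_le_div_of_nonneg_left (by positivity) hY0 hC.Yσ
    have e8 : E ^ N = E ^ a₅ * E ^ (a₆ + a + a₄) * E ^ 2 := by
      rw [hN, pow_add, pow_add]
    have e9 : E ^ (a₆ + a + a₄ + 1) = E ^ (a₆ + a + a₄) * E := pow_succ _ _
    have e10 : E ^ a₅ ≤ E ^ a₅ * E ^ (a₆ + a + a₄) := le_mul_of_one_le_right (by positivity) q2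
    have e11 : E ^ (a₆ + a + a₄) ≤ E ^ a₅ * E ^ (a₆ + a + a₄) :=
      le_mul_of_one_le_left (by positivity) q1
    have e12 : 2 * E ^ a₅ + E ^ (a₆ + a + a₄ + 1) ≤ E ^ N := by
      rw [e8, e9]
      obtain ⟨Z, hZ⟩ : ∃ Z : ℝ, Z = E ^ a₅ * E ^ (a₆ + a + a₄) := ⟨_, rfl⟩
      rw [← hZ] at e10 e11 ⊢
      have hZ0 : 0 < Z := by
        rw [hZ]
        positivity
      have e13 : E ^ (a₆ + a + a₄) * E ≤ Z * E := mul_le_mul_of_nonneg_right e11 (by linarith)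
      have e14 : (2 + E) * Z ≤ E ^ 2 * Z := mul_le_mul_of_nonneg_right (by nlinarith) hZ0.le
      linarith
    constructor
    · rw [e4]
      refine e1.trans (e7.trans (div_le_div_of_nonneg_right ?_ hY0.le))
      have : (0 : ℝ) < E ^ (a₆ + a + a₄ + 1) := by positivity
      linarith
    · have e13 : nat g P b u - ((lc0 g P V' u - lc0 g V V' u) +
          ∑ m ∈ Finset.Ico 1 u, lc g P V' u m * nat g P b m) =
          (2 ^ g u * (eval b (V' u) - eval b (P u)) -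
            (lc0 g P V' u + ∑ m ∈ Finset.Ico 1 u, lc g P V' u m * nat g P b m)) -
          (2 ^ g u * (eval b (V' u) - eval b (V u)) -
            (lc0 g V V' u + ∑ m ∈ Finset.Ico 1 u, lc g V V' u m * nat g V b m)) -
          ∑ m ∈ Finset.Ico 1 u, lc g V V' u m * nat g V b m := by
        rw [e5]
        ring
      rw [e13]
      refine (abs_sub _ _).trans ((add_le_add ((abs_sub _ _).trans
        (add_le_add (e2.trans e7) (e3.trans e7))) e6).trans ?_)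
      rw [← add_div, ← add_div]
      refine div_le_div_of_nonneg_right ?_ hY0.le
      linarith
  -- two points
  obtain ⟨b₀, hb0, k0⟩ := key (fun _ => 0) (fun l => by
    rw [abs_zero]
    exact zero_le_one)
  obtain ⟨b₁, hb1, k1⟩ := key (fun l => if l = k then 1 else 0) (fun l => by
    split_ifs
    · rw [abs_one]
    · rw [abs_zero]
      exact zero_le_one)
  obtain ⟨d, hd⟩ : ∃ d : ℕ → ℝ, d = fun m => nat g P b₁ m - nat g P b₀ m := ⟨_, rfl⟩
  have hds : ∀ l, Sl l → d l = if l = k then 1 else 0 := by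
    intro l hl
    rw [hd]
    simp only
    rw [hb0 l hl, hb1 l hl, sub_zero]
  have d1 : ∀ u, 1 ≤ u → u ≤ n → ¬ Sl u →
      |d u - ∑ m ∈ Finset.Ico 1 u, lc g P V u m * d m| ≤ 2 * (E ^ N / Y) := by
    intro u hu1 hun hSu
    have e1 := (k0 u hu1 hun hSu).1
    have e2 := (k1 u hu1 hun hSu).1
    have e3 : d u - ∑ m ∈ Finset.Ico 1 u, lc g P V u m * d m =
        (nat g P b₁ u - (lc0 g P V u + ∑ m ∈ Finset.Ico 1 u, lc g P V u m * nat g P b₁ m)) -
        (nat g P b₀ u - (lc0 g P V u + ∑ m ∈ Finset.Ico 1 u, lc g P V u m * nat g P b₀ m)) := by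
      rw [hd]
      simp_rw [mul_sub]
      rw [Finset.sum_sub_distrib]
      ring
    rw [e3]
    refine (abs_sub _ _).trans ?_
    linarith
  have d2 : ∀ u, 1 ≤ u → u ≤ n → ¬ Sl u →
      |d u - ∑ m ∈ Finset.Ico 1 u, lc g P V' u m * d m| ≤ 2 * (E ^ N / Y) := by
    intro u hu1 hun hSu
    have e1 := (k0 u hu1 hun hSu).2
    have e2 := (k1 u hu1 hun hSu).2
    have e3 : d u - ∑ m ∈ Finset.Ico 1 u, lc g P V' u m * d m =
        (nat g P b₁ u - ((lc0 g P V' u - lc0 g V V' u) +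
          ∑ m ∈ Finset.Ico 1 u, lc g P V' u m * nat g P b₁ m)) -
        (nat g P b₀ u - ((lc0 g P V' u - lc0 g V V' u) +
          ∑ m ∈ Finset.Ico 1 u, lc g P V' u m * nat g P b₀ m)) := by
      rw [hd]
      simp_rw [mul_sub]
      rw [Finset.sum_sub_distrib]
      ring
    rw [e3]
    refine (abs_sub _ _).trans ?_
    linarith
  have l1 := lin hC.hSl q1 (fun u h7 h8 => (AV u h7 h8).1) (e := 2 * (E ^ N / Y))
    (by positivity) d1 u hu1 hun hSu
  have l2 := lin hC.hSl q1 (fun u h7 h8 => (AV' u h7 h8).1) (e := 2 * (E ^ N / Y))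
    (by positivity) d2 u hu1 hun hSu
  rw [sum_sing hC.hSl hSk hds] at l1 l2
  have l3 := lin_bd (b := a₅) hE le_rfl hcn
  have l4 : ((n + 2) * E ^ a₅) ^ n * (2 * (E ^ N / Y)) ≤
      E ^ ((a₅ + 1) * n) * (2 * (E ^ N / Y)) := mul_le_mul_of_nonneg_right l3 (by positivity)
  have l5 : 2 * (E ^ ((a₅ + 1) * n) * (2 * (E ^ N / Y))) ≤
      E ^ ((a₅ + 1) * n + (N + 2)) / Y := by
    have l6 : 2 * (E ^ ((a₅ + 1) * n) * (2 * (E ^ N / Y))) =
        4 * (E ^ ((a₅ + 1) * n) * E ^ N) / Y := by ring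
    rw [l6]
    refine div_le_div_of_nonneg_right ?_ hY0.le
    have l7 : E ^ ((a₅ + 1) * n + (N + 2)) = E ^ 2 * (E ^ ((a₅ + 1) * n) * E ^ N) := by
      rw [pow_add, pow_add]
      ring
    rw [l7]
    exact mul_le_mul_of_nonneg_right (by nlinarith) (by positivity)
  unfold sS
  rw [abs_le] at l1 l2 ⊢
  constructor <;> linarith

end Pool.P4O
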