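import Pool.Agent.H38.P4.Mk

/-!
# Own sheets over a closed frame
-/

set_option autoImplicit false

namespace Pool.P4O

open Finset Real MvPolynomial
open Pool.Agent.H49.Ent Pool.Agent.H32.Dense Pool.STK Pool.STAT Pool.MIC.Frm Pool.MIC7 Pool.FRM
open Pool.GSD Pool.P4

theorem gr_iff {gam : ℕ → ℝ} {n l : ℕ} : gr gam n l ↔ 1 ≤ l ∧ l ≤ n ∧ ¬ sl gam n l := by
  constructor
  · rintro ⟨h1, h2, h3⟩
    exact ⟨h1, h2, fun h4 => absurd h4.2.2 (not_lt.2 h3)⟩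
  · rintro ⟨h1, h2, h3⟩
    refine ⟨h1, h2, ?_⟩
    by_contra h
    push Not at h
    rcases Nat.lt_or_ge l n with h4 | h4
    · exact h3 ⟨h1, h4, h⟩
    · have h5 : l = n := by omega
      subst h5
      unfold thd at h
      exact absurd h (not_lt.2 (min_le_left _ _))

open Classical in
/-- **(OWN)** -/
theorem own_stmt : Pool.P4.OwnStmt := by
  intro n K K' lam gam C₁ C hn hC₁ hC hlam hgam
  obtain ⟨a, c₀, ha, h0⟩ := mk_cel n K K' C₁ C hC₁ hC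
  obtain ⟨aS, cS, hS⟩ := sS_le n (max K K') a
  obtain ⟨aB, cB, hB⟩ := cel_b n (max K K') a
  obtain ⟨aC, cC, hCC⟩ := cel_c n (max K K') a
  obtain ⟨aD, cD, hD⟩ := cel_d n (max K K') a
  obtain ⟨N, hN⟩ : ∃ N : ℕ, N = aS + aB + aC + aD + 1 := ⟨_, rfl⟩
  refine ⟨N, by rw [hN]; push_cast; have : (0 : ℝ) ≤ aS + aB + aC + aD := by positivity
                linarith, ?_⟩
  intro y r r' r'' aa M
  obtain ⟨z₀, hz₀⟩ := exists_nat_ge (max (max c₀ cS) (max cB (max cC cD)))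
  refine ⟨z₀, ?_⟩
  intro J a₀ w₀ z i j D q κ hz hpl hO P E hE
  have hzE : (z : ℝ) + 1 ≤ exp z := Real.add_one_le_exp _
  have hzz : (z₀ : ℝ) ≤ z := by exact_mod_cast hz
  have hcE : max (max c₀ cS) (max cB (max cC cD)) ≤ exp (z : ℝ) := by linarith
  obtain ⟨hA1, hA2⟩ := max_le_iff.1 hcE
  obtain ⟨hc0, hcS⟩ := max_le_iff.1 hA1
  obtain ⟨hcB, hA3⟩ := max_le_iff.1 hA2
  obtain ⟨hcC, hcD⟩ := max_le_iff.1 hA3
  have hE1 : 1 ≤ exp (z : ℝ) := Real.one_le_exp (Nat.cast_nonneg z)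
  -- the own frames
  have hfv : ∀ ω, E ω → ∃ V : ℕ → PN, TriN V ∧ (∀ l, (V l).totalDegree ≤ K') ∧
      (∀ l ≤ n, eval (D.X ω) (V l) = D.X ω l) ∧ ∀ i < M, ∀ j < M, ∀ l ≤ n,
        nrm (D.g i j) (1 / 2) (chr V (fr D (i, j) ω l - V l)) ≤ exp (C * z) / 2 ^ D.g i j l :=
    fun ω hω => (hE ω hω).2.1.fv
  choose! V hV using hfv
  have cel : ∀ ω, E ω → Cel n (max K K') a (exp z) (D.X ω 0) (2 ^ (i * z)) (2 ^ (y * z))
      (D.g i j) (D.g 0 j) (D.g (i - r') (j + r)) (D.g (i - r'') (j + r)) (sl gam n)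
      (fz (D.X ω 0) (P (bb D i j r ω))) (fz (D.X ω 0) (V ω)) (fr D (i - r', j + r) ω)
      (fr D (i - r'', j + r) ω) (D.X ω) := fun ω hω =>
    h0 lam gam y r r' r'' aa M J a₀ w₀ z i j D q κ (P (bb D i j r ω)) (V ω) ω hlam hc0 hpl hO
      (hE ω hω).1 (hV ω hω) (hE ω hω).2.2
  have mN : ∀ {b : ℕ} {x : ℝ}, 0 ≤ x → b ≤ N → exp x ^ b ≤ exp (N * x) := by
    intro b x hx hb
    rw [← Real.exp_nat_mul]
    refine Real.exp_le_exp.2 (mul_le_mul_of_nonneg_right ?_ hx)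
    exact_mod_cast hb
  have z0 : (0 : ℝ) ≤ z := Nat.cast_nonneg z
  obtain ⟨S, hSdef⟩ : ∃ S : D.Ω → ℕ → ℕ → ℝ, S = fun ω u k => if E ω then
      sS n (sl gam n) (D.g i j) (fz (D.X ω 0) (P (bb D i j r ω))) (fz (D.X ω 0) (V ω)) u k
      else 0 := ⟨_, rfl⟩
  have hSE : ∀ ω, E ω → ∀ u k, S ω u k =
      sS n (sl gam n) (D.g i j) (fz (D.X ω 0) (P (bb D i j r ω))) (fz (D.X ω 0) (V ω)) u k := by
    intro ω hω u k
    rw [hSdef]
    simp only
    rw [if_pos hω]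
  have hnn : ∀ ω, E ω → ∀ u, 1 ≤ u → nn D n i j r gam P S ω u =
      sN n (sl gam n) (D.g i j) (fz (D.X ω 0) (P (bb D i j r ω))) (fz (D.X ω 0) (V ω))
        (D.X ω) u := by
    intro ω hω u hu
    unfold nn sN ze
    rw [nat_fz' _ _ rfl hu]
    congr 1
    refine Finset.sum_congr rfl fun k hk => ?_
    rw [hSE ω hω, nat_fz' _ _ rfl (Finset.mem_filter.1 hk).2.1]
  refine ⟨S, fun ω u k => ?_, fun ω u k huk => ?_, fun ω hω Bx hBx b hb0 hbs hbg u hu => ?_,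
    fun ω ω' hω hω' hbb hT => ⟨fun hs u hu => ?_, fun hs u hu k hk => ?_⟩⟩
  · by_cases hω : E ω
    · rw [hSE ω hω]
      exact (hS _ _ _ _ _ _ _ _ _ _ _ _ _ _ hE1 hcS (cel ω hω) u k).trans
        (mN z0 (by omega))
    · rw [hSdef]
      simp only
      rw [if_neg hω, abs_zero]
      positivity
  · by_cases hω : E ω
    · rw [hSE ω hω]
      exact SS_zero _ _ _ _ _ huk
    · rw [hSdef]
      simp only
      rw [if_neg hω]
  · obtain ⟨hu1, hun, hSu⟩ := gr_iff.1 hu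
    have hBz : (z : ℝ) ≤ Bx * z := le_mul_of_one_le_left z0 hBx
    have e1 := hB (exp z) (exp (Bx * z)) (D.X ω 0) _ _ _ _ _ _ _ _ _ _ _ (D.X ω) hE1 hcB
      (Real.exp_le_exp.2 hBz) (cel ω hω) b hb0 (fun l hl1 hln hl => by
        rw [nat_fz' _ _ hb0 hl1]
        refine (hbs l hl).trans ?_
        exact le_self_pow₀ (Real.one_le_exp (by positivity)) (by omega))
      (fun l hl1 hln hl => by
        have := hbg l (gr_iff.2 ⟨hl1, hln, hl⟩)
        unfold fr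
        rw [eval_fz' _ hb0 hl1]
        exact this) u hu1 hun hSu
    rw [nat_fz' _ _ hb0 hu1] at e1
    rw [hnn ω hω u hu1]
    have e2 : ∑ k ∈ (range n).filter (sl gam n),
        S ω u k * nat (D.g i j) (P (bb D i j r ω)) b k =
        ∑ k ∈ (range n).filter (sl gam n), sS n (sl gam n) (D.g i j)
          (fz (D.X ω 0) (P (bb D i j r ω))) (fz (D.X ω 0) (V ω)) u k *
          nat (D.g i j) (fz (D.X ω 0) (P (bb D i j r ω))) b k := by
      refine Finset.sum_congr rfl fun k hk => ?_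
      rw [hSE ω hω, nat_fz' _ _ hb0 (Finset.mem_filter.1 hk).2.1]
    rw [e2]
    refine e1.trans (div_le_div_of_nonneg_right ?_ (by positivity))
    rw [mul_assoc]
    exact mN (by positivity) (by omega)
  · obtain ⟨hu1, hun, hSu⟩ := gr_iff.1 hu
    have ht : D.X ω' 0 = D.X ω 0 := by rw [hO.X_zero, hO.X_zero, hT]
    have hA : fr D (i - r', j + r) ω' = fr D (i - r', j + r) ω := by
      unfold fr NDat2.Ψ
      rw [ht, hs]
    have c1 := cel ω hω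
    have c2 := cel ω' hω'
    rw [hA, ← hbb, ht] at c2
    have e1 := hCC _ _ _ _ _ _ _ _ _ _ _ _ _ _ _ _ _ hE1 hcC c1 c2 u hu1 hun hSu
    rw [hnn ω hω u hu1, hnn ω' hω' u hu1, ← hbb, ht]
    refine ⟨e1.1.trans (div_le_div_of_nonneg_right (mN z0 (by omega)) (by positivity)),
      fun k hk => ?_⟩
    rw [hSE ω hω, hSE ω' hω', ← hbb, ht]
    exact (e1.2 k hk).trans (div_le_div_of_nonneg_right (mN z0 (by omega)) (by positivity))
  · obtain ⟨hu1, hun, hSu⟩ := gr_iff.1 hu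
    have ht : D.X ω' 0 = D.X ω 0 := by rw [hO.X_zero, hO.X_zero, hT]
    have hA : fr D (i - r'', j + r) ω' = fr D (i - r'', j + r) ω := by
      unfold fr NDat2.Ψ
      rw [ht, hs]
    have c1 := cel ω hω
    have c2 := cel ω' hω'
    rw [hA, ← hbb, ht] at c2
    have e1 := hD _ _ _ _ _ _ _ _ _ _ _ _ _ _ _ _ _ hE1 hcD c1 c2 u hu1 hun hSu k hk
    rw [hSE ω hω, hSE ω' hω', ← hbb, ht]
    exact e1.trans (div_le_div_of_nonneg_right (mN z0 (by omega)) (by positivity))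

end Pool.P4O
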