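import Pool.Agent.H38.P4.Nea
import Pool.Agent.H38.P4.Cld

/-!
# The close systems of a place of a cell
-/

set_option autoImplicit false

namespace Pool.P4O

open Finset Real MvPolynomial
open Pool.Agent.H49.Ent Pool.Agent.H32.Dense Pool.STK Pool.STAT Pool.MIC.Frm Pool.MIC7 Pool.FRM
open Pool.GSD Pool.P4

/-- The levels of a place. -/
theorem levels {D : NDat2} {n K J a₀ w₀ z M : ℕ} {lam gam : ℕ → ℝ} {κ C₁ : ℝ} {q : D.Ω → ℝ}
    {y r r' r'' aa i j c : ℕ} (hC₁ : 1 ≤ C₁) (hc : 4 * C₁ ≤ c)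
    (hlam : ∀ l, 1 ≤ l → l ≤ n → lam l = 1) (hpl : Plc n gam y r r' r'' aa M i j)
    (hO : D.Ok2 n K J a₀ w₀ z M lam gam κ C₁ q) :
    Lv n (D.g i j) (D.g 0 j) (2 ^ (i * z)) (exp z ^ c) ∧
    (∀ l, 1 ≤ l → l ≤ n → sl gam n l →
      (2 : ℝ) ^ D.g (i - r') (j + r) l ≤ exp z ^ c * 2 ^ D.g i j l) ∧
    (∀ l, 1 ≤ l → l ≤ n → ¬ sl gam n l →
      (2 : ℝ) ^ (y * z) * 2 ^ D.g i j l ≤ exp z ^ c * 2 ^ D.g (i - r') (j + r) l) ∧
    ∀ u m, 1 ≤ u → u ≤ n → ¬ sl gam n u → 1 ≤ m → m ≤ n → sl gam n m →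
      (2 : ℝ) ^ D.g i j u / 2 ^ D.g (i - r'') (j + r) u *
        (2 ^ D.g (i - r'') (j + r) m / 2 ^ D.g i j m) ≤ exp z ^ c / 2 ^ (y * z) := by
  have z0 : (0 : ℝ) ≤ z := Nat.cast_nonneg z
  have hst := hpl.stp
  have i1 := hpl.i1
  have i2 := hpl.i2
  have j1 := hpl.j1
  have j2 := hpl.j2
  have s5 := hst.s5
  have hg : ∀ i' ≤ M, ∀ j' ≤ M, ∀ l, 1 ≤ l → l ≤ n →
      |(D.g i' j' l : ℝ) - D.g 0 0 l - ((i' : ℝ) + gam l * j') * z| ≤ C₁ * z := by
    intro i' hi' j' hj' l hl1 hln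
    have := hO.hom i' hi' j' hj' l hl1 hln
    rw [hlam l hl1 hln, one_mul] at this
    exact this
  have ce : ∀ x : ℝ, x ≤ 4 * C₁ * z → exp x ≤ exp z ^ c := fun x hx =>
    (Real.exp_le_exp.2 hx).trans (exp_pow z hc)
  have hb : 2 * C₁ * z ≤ 4 * C₁ * z := by nlinarith
  have hgr : ∀ l, 1 ≤ l → l ≤ n → ¬ sl gam n l → gr gam n l := by
    intro l hl1 hln hs
    refine ⟨hl1, hln, ?_⟩
    by_contra h
    push Not at h
    rcases Nat.lt_or_ge l n with h1 | h1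
    · exact hs ⟨hl1, h1, h⟩
    · have h2 : l = n := by omega
      subst h2
      unfold thd at h
      exact absurd h (not_lt.2 (min_le_left _ _))
  refine ⟨fun m hm1 hmn => ⟨?_, ?_⟩, fun l hl1 hln hs => ?_, fun l hl1 hln hs => ?_,
    fun u m hu1 hun hSu hm1 hmn hSm => ?_⟩
  · have e1 := hg i (by omega) j (by omega) m hm1 hmn
    have e2 := hg 0 (by omega) j (by omega) m hm1 hmn
    rw [abs_le] at e1 e2
    push_cast at e2
    have e3 := lev_le (p := D.g i j m) (q := D.g 0 j m + i * z) (s := 2 * C₁ * z)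
      (by push_cast; nlinarith [e1.2, e2.1]) (by positivity)
    refine e3.trans ?_
    rw [pow_add]
    calc exp (2 * C₁ * z) * (2 ^ D.g 0 j m * 2 ^ (i * z))
        ≤ exp z ^ c * (2 ^ D.g 0 j m * 2 ^ (i * z)) :=
          mul_le_mul_of_nonneg_right (ce _ hb) (by positivity)
      _ = _ := by ring
  · have e1 := hg i (by omega) j (by omega) m hm1 hmn
    have e2 := hg 0 (by omega) j (by omega) m hm1 hmn
    rw [abs_le] at e1 e2
    push_cast at e2
    have e3 := lev_le (p := i * z + D.g 0 j m) (q := D.g i j m) (s := 2 * C₁ * z)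
      (by push_cast; nlinarith [e1.1, e2.2]) (by positivity)
    rw [pow_add] at e3
    exact e3.trans (mul_le_mul_of_nonneg_right (ce _ hb) (by positivity))
  · have e1 := hg i (by omega) j (by omega) l hl1 hln
    have e2 := hg (i - r') (by omega) (j + r) (by omega) l hl1 hln
    rw [abs_le] at e1 e2
    have h1 := hst.s1 l hs
    have c1 : ((i - r' : ℕ) : ℝ) = (i : ℝ) - r' := by
      rw [Nat.cast_sub (by omega)]
    have c2 : ((j + r : ℕ) : ℝ) = (j : ℝ) + r := by push_cast; ring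
    rw [c1, c2] at e2
    have y0 : (0 : ℝ) ≤ y := Nat.cast_nonneg y
    have e4 : (gam l * r - r') * z ≤ 0 := mul_nonpos_of_nonpos_of_nonneg (by linarith) z0
    have e3 := lev_le (p := D.g (i - r') (j + r) l) (q := D.g i j l) (s := 2 * C₁ * z)
      (by nlinarith [e1.1, e2.2]) (by positivity)
    exact e3.trans (mul_le_mul_of_nonneg_right (ce _ hb) (by positivity))
  · have hl := hgr l hl1 hln hs
    have e1 := hg i (by omega) j (by omega) l hl1 hln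
    have e2 := hg (i - r') (by omega) (j + r) (by omega) l hl1 hln
    rw [abs_le] at e1 e2
    have h1 := hst.s2 l hl
    have c1 : ((i - r' : ℕ) : ℝ) = (i : ℝ) - r' := by
      rw [Nat.cast_sub (by omega)]
    have c2 : ((j + r : ℕ) : ℝ) = (j : ℝ) + r := by push_cast; ring
    rw [c1, c2] at e2
    have e4 : (r' + y) * (z : ℝ) ≤ (gam l * r) * z := mul_le_mul_of_nonneg_right h1 z0
    have e3 := lev_le (p := y * z + D.g i j l) (q := D.g (i - r') (j + r) l) (s := 2 * C₁ * z)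
      (by push_cast; nlinarith [e1.2, e2.1]) (by positivity)
    rw [pow_add] at e3
    exact e3.trans (mul_le_mul_of_nonneg_right (ce _ hb) (by positivity))
  · have hu := hgr u hu1 hun hSu
    have e1 := hg i (by omega) j (by omega) u hu1 hun
    have e2 := hg (i - r'') (by omega) (j + r) (by omega) u hu1 hun
    have e3 := hg i (by omega) j (by omega) m hm1 hmn
    have e4 := hg (i - r'') (by omega) (j + r) (by omega) m hm1 hmn
    rw [abs_le] at e1 e2 e3 e4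
    have h1 := hst.s2 u hu
    have h2 := hst.s1 m hSm
    have c1 : ((i - r'' : ℕ) : ℝ) = (i : ℝ) - r'' := by
      rw [Nat.cast_sub (by omega)]
    have c2 : ((j + r : ℕ) : ℝ) = (j : ℝ) + r := by push_cast; ring
    rw [c1, c2] at e2 e4
    have f1 : (r' + y) * (z : ℝ) ≤ (gam u * r) * z := mul_le_mul_of_nonneg_right h1 z0
    have f2 : (gam m * r + y) * (z : ℝ) ≤ r' * z := mul_le_mul_of_nonneg_right h2 z0
    have f3 : (0 : ℝ) ≤ y * z := by positivity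
    have e5 := lev_le (p := y * z + D.g i j u + D.g (i - r'') (j + r) m)
      (q := D.g (i - r'') (j + r) u + D.g i j m) (s := 4 * C₁ * z)
      (by push_cast; nlinarith [e1.2, e2.1, e3.1, e4.2]) (by positivity)
    rw [pow_add, pow_add, pow_add] at e5
    rw [le_div_iff₀ (by positivity), div_mul_div_comm, div_mul_eq_mul_div,
      div_le_iff₀ (by positivity)]
    calc (2 : ℝ) ^ D.g i j u * 2 ^ D.g (i - r'') (j + r) m * 2 ^ (y * z)
        = 2 ^ (y * z) * 2 ^ D.g i j u * 2 ^ D.g (i - r'') (j + r) m := by ring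
      _ ≤ exp (4 * C₁ * z) * (2 ^ D.g (i - r'') (j + r) u * 2 ^ D.g i j m) := e5
      _ ≤ exp z ^ c * (2 ^ D.g (i - r'') (j + r) u * 2 ^ D.g i j m) :=
          mul_le_mul_of_nonneg_right (ce _ le_rfl) (by positivity)

/-- **The close systems of a place.** -/
theorem mk_cel (n K K' : ℕ) (C₁ C : ℝ) (hC₁ : 1 ≤ C₁) (hC : 0 ≤ C) : ∃ (a : ℕ) (c₀ : ℝ), 1 ≤ a ∧
    ∀ (lam gam : ℕ → ℝ) (y r r' r'' aa M J a₀ w₀ z i j : ℕ) (D : NDat2) (q : D.Ω → ℝ) (κ : ℝ)
      (P V : ℕ → PN) (ω : D.Ω), (∀ l, 1 ≤ l → l ≤ n → lam l = 1) → c₀ ≤ exp z →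
      Plc n gam y r r' r'' aa M i j → D.Ok2 n K J a₀ w₀ z M lam gam κ C₁ q → 0 < q ω →
      (TriN V ∧ (∀ l, (V l).totalDegree ≤ K') ∧ (∀ l ≤ n, eval (D.X ω) (V l) = D.X ω l) ∧
        ∀ i < M, ∀ j < M, ∀ l ≤ n, nrm (D.g i j) (1 / 2) (chr V (fr D (i, j) ω l - V l)) ≤
          exp (C * z) / 2 ^ D.g i j l) →
      FrP D n K' z i j r C P ω →
      Cel n (max K K') a (exp z) (D.X ω 0) (2 ^ (i * z)) (2 ^ (y * z)) (D.g i j) (D.g 0 j)
        (D.g (i - r') (j + r)) (D.g (i - r'') (j + r)) (sl gam n) (fz (D.X ω 0) P)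
        (fz (D.X ω 0) V) (fr D (i - r', j + r) ω) (fr D (i - r'', j + r) ω) (D.X ω) := by
  obtain ⟨KK, hKK⟩ : ∃ KK : ℕ, KK = max K K' := ⟨_, rfl⟩
  have hK1 : K ≤ KK := by rw [hKK]; exact le_max_left _ _
  have hK2 : K' ≤ KK := by rw [hKK]; exact le_max_right _ _
  obtain ⟨c, hc⟩ := exists_nat_ge C
  obtain ⟨c4, hc4⟩ := exists_nat_ge (4 * C₁)
  obtain ⟨aP, cP, h1⟩ := cls_P n KK c
  obtain ⟨aV, h2⟩ := cls_V n KK c
  obtain ⟨aS, cS, h3⟩ := cls_sym n KK aP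
  obtain ⟨aT, cT, h4⟩ := cls_trans n KK aS
  obtain ⟨aW, cW, h5⟩ := cls_sym n KK aV
  obtain ⟨aN, cN, h6⟩ := cls_nbr n KK (aT + aW)
  refine ⟨aN + aV + c4 + aS + 1, max (max (max cP cS) (max cT cW)) (max cN 2), by omega, ?_⟩
  intro lam gam y r r' r'' aa M J a₀ w₀ z i j D q κ P V ω hlam hc₀ hpl hO hω hV hP
  rw [← hKK]
  obtain ⟨hcA, hcB⟩ := max_le_iff.1 hc₀
  obtain ⟨hcA1, hcA2⟩ := max_le_iff.1 hcA
  obtain ⟨hcP, hcS⟩ := max_le_iff.1 hcA1
  obtain ⟨hcT, hcW⟩ := max_le_iff.1 hcA2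
  obtain ⟨hcN, hc2⟩ := max_le_iff.1 hcB
  have hE : 1 ≤ exp (z : ℝ) := Real.one_le_exp (Nat.cast_nonneg z)
  have i1 := hpl.i1
  have i2 := hpl.i2
  have j1 := hpl.j1
  have j2 := hpl.j2
  have s5 := hpl.stp.s5
  have a1 := hpl.a1
  have s6 := hpl.stp.s6
  obtain ⟨tV, dV, xV, nV⟩ := hV
  obtain ⟨tP, dP, nP⟩ := hP
  obtain ⟨t, ht⟩ : ∃ t : ℝ, t = D.X ω 0 := ⟨_, rfl⟩
  have syP : Sy KK (D.X ω 0) (fz (D.X ω 0) P) := sy_fz tP (fun l => (dP l).trans hK2) _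
  have syV : Sy KK (D.X ω 0) (fz (D.X ω 0) V) := sy_fz tV (fun l => (dV l).trans hK2) _
  have syR : ∀ i' j', Sy KK (D.X ω 0) (fr D (i', j') ω) := fun i' j' =>
    sy_fz (hO.G_tri i' j' _) (fun l => (hO.G_deg i' j' _ l).trans hK1) _
  have syF : ∀ i' j', Sy KK (D.X ω 0) (fz (D.X ω 0) (D.Φ i' j' ω)) := fun i' j' =>
    sy_fz (hO.P_tri i' j' _) (fun l => (hO.P_deg i' j' _ l).trans hK1) _
  have m : ∀ {b : ℕ}, b ≤ aN + aV + c4 + aS + 1 → exp (z : ℝ) ^ b ≤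
      exp z ^ (aN + aV + c4 + aS + 1) := fun h => pw hE h
  -- the own frame
  have hVR : ∀ i' < M, ∀ j' < M,
      Cls n (D.g i' j') (exp z ^ aV) (fz (D.X ω 0) V) (fr D (i', j') ω) :=
    h2 D M z C ω V hc (fun i j x l => (hO.G_deg i j x l).trans hK1) hO.G_tri tV
      (fun l => (dV l).trans hK2) xV nV
  -- the closed frame
  have hPF : ∀ i' ≤ i, Cls n (D.g i' j) (exp z ^ aP) (fz (D.X ω 0) P)
      (fz (D.X ω 0) (D.Φ i' j ω)) := fun i' hi' =>
    h1 D K J a₀ w₀ z M lam gam κ C₁ C q ω P i' j hK1 hcP hc hC hO hω (by omega) (by omega)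
      tP (fun l => (dP l).trans hK2) (fun l hl => (nP i' hi' l hl).1)
  have hFP : ∀ i' ≤ i, Cls n (D.g i' j) (exp z ^ aS) (fz (D.X ω 0) (D.Φ i' j ω))
      (fz (D.X ω 0) P) := fun i' hi' =>
    h3 _ _ _ _ _ hE hcS syP (syF i' j) (hPF i' hi')
  have hRP : ∀ i' ≤ i, Cls n (D.g i' j) (exp z ^ aT) (fr D (i', j) ω) (fz (D.X ω 0) P) :=
    fun i' hi' => h4 _ _ _ _ _ _ hE hcT (syR i' j) (syF i' j) syP
      ((cls_fr hO (by omega) (by omega) hω).mono (pw1 hE aS)) (hFP i' hi')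
  have hRV : ∀ i' ≤ i, Cls n (D.g i' j) (exp z ^ aW) (fr D (i', j) ω) (fz (D.X ω 0) V) :=
    fun i' hi' => h5 _ _ _ _ _ hE hcW syV (syR i' j) (hVR i' (by omega) j (by omega))
  have hPV : ∀ i' ≤ i, Cls n (D.g i' j) (exp z ^ aN) (fz (D.X ω 0) P) (fz (D.X ω 0) V) :=
    fun i' hi' => h6 _ _ _ _ _ _ hE hcN (syR i' j) syP syV
      ((hRP i' hi').mono (pw hE (by omega))) ((hRV i' hi').mono (pw hE (by omega)))
  -- levels
  obtain ⟨l1, l2, l3, l4⟩ := levels (c := c4) hC₁ hc4 hlam hpl hO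
  refine ⟨syP, syV, syR _ _, syR _ _, (hPV i le_rfl).mono (m (by omega)),
    (hPV 0 (Nat.zero_le _)).mono (m (by omega)), (hVR _ (by omega) _ (by omega)).mono
    (m (by omega)), (hVR _ (by omega) _ (by omega)).mono (m (by omega)),
    l1.mono (by positivity) (m (by omega)), one_le_pow₀ (by norm_num),
    pow_le_pow_right₀ (by norm_num) (Nat.mul_le_mul_right _ (by omega)),
    fun l h7 h8 h9 => (l2 l h7 h8 h9).trans (mul_le_mul_of_nonneg_right (m (by omega))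
      (by positivity)), fun l h7 h8 h9 => (l3 l h7 h8 h9).trans
      (mul_le_mul_of_nonneg_right (m (by omega)) (by positivity)),
    fun u k h7 h8 h9 h10 h11 h12 => (l4 u k h7 h8 h9 h10 h11 h12).trans
      (div_le_div_of_nonneg_right (m (by omega)) (by positivity)), rfl, fun l hl1 hln => ?_,
    fun l hl1 hln => ?_, fun l hl => ⟨hl.1, hl.2.1⟩⟩
  · -- the own point over the closed frame
    have hbx : ∀ k < l, |nat (D.g i j) (fz (D.X ω 0) (D.Φ i j ω)) (D.X ω) k| ≤ 1 := by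
      intro k hk
      rcases Nat.eq_zero_or_pos k with h7 | h7
      · rw [h7, nat_fz_zero, sub_self, mul_zero, abs_zero]
        exact zero_le_one
      · rw [nat_fz' _ _ rfl h7]
        have h8 := hO.hgt i (by omega) j (by omega) ω hω k (by omega)
        unfold NDat2.rh at h8
        unfold nat
        rw [abs_mul, abs_of_pos (by positivity)]
        rwa [le_div_iff₀ (by positivity), mul_comm] at h8
    have e1 := hFP i le_rfl l hl1 hln (D.X ω) hbx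
    have e2 := hO.hgt i (by omega) j (by omega) ω hω l hln
    unfold NDat2.rh at e2
    rw [← eval_fz' (D.Φ i j ω) rfl hl1] at e2
    have pg : (0 : ℝ) < 2 ^ D.g i j l := by positivity
    unfold nat
    rw [abs_mul, abs_of_pos pg]
    have e3 : D.X ω l - eval (D.X ω) (fz (D.X ω 0) P l) =
        (D.X ω l - eval (D.X ω) (fz (D.X ω 0) (D.Φ i j ω) l)) +
        (eval (D.X ω) (fz (D.X ω 0) (D.Φ i j ω) l) - eval (D.X ω) (fz (D.X ω 0) P l)) := by ring
    have e4 := (abs_add_le _ _).trans (add_le_add e2 e1)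
    rw [← e3, ← add_div, le_div_iff₀ pg] at e4
    have e5 : (1 : ℝ) ≤ exp z ^ aS := pw1 hE aS
    calc 2 ^ D.g i j l * |D.X ω l - eval (D.X ω) (fz (D.X ω 0) P l)|
        ≤ 1 + exp z ^ aS := by linarith
      _ ≤ exp z ^ aS * exp z := by nlinarith
      _ = exp z ^ (aS + 1) := (pow_succ _ _).symm
      _ ≤ _ := m (by omega)
  · rw [eval_fz' V rfl hl1, xV l hln]

end Pool.P4O
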