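import Pool.Agent.H38.P4.Cal

/-!
# Affine approximation of the difference of two close systems
-/

set_option autoImplicit false

namespace Pool.P4O

open Finset Real MvPolynomial
open Pool.STAT Pool.MIC.Frm Pool.MIC7 Pool.FRM

/-! ### Degrees of the exponents -/

/-- The degree. -/
def dgr (α : ℕ →₀ ℕ) : ℕ := ∑ m ∈ α.support, α m

theorem dgr_zero {α : ℕ →₀ ℕ} (h : dgr α = 0) : α = 0 := by
  unfold dgr at h
  rw [Finset.sum_eq_zero_iff] at h
  ext m
  by_cases hm : m ∈ α.support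
  · exact h m hm
  · simpa using hm

theorem dgr_one {α : ℕ →₀ ℕ} (h : dgr α = 1) : ∃ m, α = Finsupp.single m 1 := by
  unfold dgr at h
  have h1 : ∃ m ∈ α.support, α m ≠ 0 := by
    by_contra hcon
    push Not at hcon
    rw [Finset.sum_eq_zero hcon] at h
    exact zero_ne_one h
  obtain ⟨m, hm, hm0⟩ := h1
  refine ⟨m, ?_⟩
  have h2 := Finset.add_sum_erase α.support (fun m => α m) hm
  have h3 : α m = 1 := by omega
  have h4 : ∑ x ∈ α.support.erase m, α x = 0 := by omega
  rw [Finset.sum_eq_zero_iff] at h4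
  ext k
  by_cases hk : k = m
  · subst hk
    rw [Finsupp.single_eq_same, h3]
  · rw [Finsupp.single_eq_of_ne (by exact hk)]
    by_cases hk' : k ∈ α.support
    · exact h4 k (Finset.mem_erase.2 ⟨hk, hk'⟩)
    · simpa using hk'

theorem pow_weight (g : ℕ → ℕ) (α : ℕ →₀ ℕ) :
    (2 : ℝ) ^ Finsupp.weight g α = ∏ m ∈ α.support, ((2 : ℝ) ^ g m) ^ α m := by
  rw [Finsupp.weight_apply, Finsupp.sum, ← Finset.prod_pow_eq_pow_sum]
  refine Finset.prod_congr rfl fun m _ => ?_
  change (2 : ℝ) ^ (α m * g m) = _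
  rw [← pow_mul, mul_comm]

theorem weight_single (g : ℕ → ℕ) (m : ℕ) : Finsupp.weight g (Finsupp.single m 1) = g m := by
  rw [Finsupp.weight_apply, Finsupp.sum_single_index (by rw [zero_smul]), one_smul]

/-! ### The coefficients in units -/

/-- The constant coefficient. -/
noncomputable def lc0 (g : ℕ → ℕ) (A B : ℕ → PN) (u : ℕ) : ℝ :=
  2 ^ g u * coeff 0 (chr A (B u - A u))

/-- The linear coefficients. -/
noncomputable def lc (g : ℕ → ℕ) (A B : ℕ → PN) (u m : ℕ) : ℝ :=
  2 ^ g u / 2 ^ g m * coeff (Finsupp.single m 1) (chr A (B u - A u))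

/-- The levels of two places: the difference is `σ` up to `W`. -/
def Lv (n : ℕ) (g g₀ : ℕ → ℕ) (σ W : ℝ) : Prop :=
  ∀ m, 1 ≤ m → m ≤ n → (2 : ℝ) ^ g m ≤ W * σ * 2 ^ g₀ m ∧ σ * 2 ^ g₀ m ≤ W * 2 ^ g m

/-- The nonlinear part. -/
noncomputable def nlp (l : ℕ) (F : PN) : PN :=
  F - C (coeff 0 F) - ∑ m ∈ range l, C (coeff (Finsupp.single m 1) F) * X m

theorem nlp_eval (l : ℕ) (F : PN) (x : ℕ → ℝ) : eval x F = coeff 0 F +
    ∑ m ∈ range l, coeff (Finsupp.single m 1) F * x m + eval x (nlp l F) := by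
  unfold nlp
  rw [map_sub, map_sub, eval_C, map_sum]
  have : ∀ m ∈ range l, eval x (C (coeff (Finsupp.single m 1) F) * X m : PN) =
      coeff (Finsupp.single m 1) F * x m := fun m _ => by
    rw [map_mul, eval_C, eval_X]
  rw [Finset.sum_congr rfl this]
  ring

theorem nlp_vars {l : ℕ} {F : PN} (h : F.vars ⊆ range l) : (nlp l F).vars ⊆ range l := by
  unfold nlp
  refine AdxRow.vars_sub_le (AdxRow.vars_sub_le h (AdxRow.vars_C_le _)) ?_
  intro k hk
  have h1 := vars_sum_subset (range l) (fun m => (C (coeff (Finsupp.single m 1) F) * X m : PN)) hk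
  rw [Finset.mem_biUnion] at h1
  obtain ⟨m, hm, hk'⟩ := h1
  exact AdxRow.vars_mul_le (AdxRow.vars_C_le _) (AdxRow.vars_X_le (mem_range.1 hm)) hk'

theorem nlp_deg {l K : ℕ} {F : PN} (h : F.totalDegree ≤ K) (hK : 1 ≤ K) :
    (nlp l F).totalDegree ≤ K := by
  unfold nlp
  refine (totalDegree_sub _ _).trans (max_le ((totalDegree_sub _ _).trans
    (max_le h (by rw [totalDegree_C]; omega))) ?_)
  refine (totalDegree_finsetSum _ _).trans (Finset.sup_le fun m _ => ?_)
  refine (totalDegree_mul _ _).trans ?_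
  have h1 : (X m : PN).totalDegree ≤ 1 := (totalDegree_X m).le
  rw [totalDegree_C]
  omega

theorem nlp_coeff {l : ℕ} {F : PN} (hF : F.vars ⊆ range l) (α : ℕ →₀ ℕ) :
    coeff α (nlp l F) = if dgr α ≤ 1 then 0 else coeff α F := by
  classical
  unfold nlp
  rw [coeff_sub, coeff_sub, coeff_C, coeff_sum]
  have h0 : ∀ m, coeff α (C (coeff (Finsupp.single m 1) F) * X m : PN) =
      if α = Finsupp.single m 1 then coeff (Finsupp.single m 1) F else 0 := by
    intro m
    rw [coeff_C_mul, coeff_X]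
    by_cases h : Finsupp.single m 1 = α
    · rw [if_pos h, if_pos h.symm, mul_one]
    · rw [if_neg h, if_neg (Ne.symm h), mul_zero]
  rw [Finset.sum_congr rfl fun m _ => h0 m]
  by_cases hd : dgr α ≤ 1
  · rw [if_pos hd]
    rcases Nat.le_one_iff_eq_zero_or_eq_one.1 hd with h1 | h1
    · have h2 := dgr_zero h1
      subst h2
      rw [if_pos rfl, sub_self, zero_sub, neg_eq_zero]
      refine Finset.sum_eq_zero fun m _ => ?_
      rw [if_neg]
      intro h3
      have := DFunLike.congr_fun h3 m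
      rw [Finsupp.single_eq_same] at this
      exact absurd this (by norm_num)
    · obtain ⟨m, rfl⟩ := dgr_one h1
      have h3 : (0 : ℕ →₀ ℕ) ≠ Finsupp.single m 1 := by
        intro h3
        have := DFunLike.congr_fun h3 m
        rw [Finsupp.single_eq_same] at this
        exact absurd this (by norm_num)
      rw [if_neg h3, sub_zero]
      by_cases hm : m < l
      · rw [Finset.sum_eq_single m]
        · rw [if_pos rfl, sub_self]
        · intro m' _ hne
          rw [if_neg]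
          intro h4
          exact hne (Finsupp.single_left_injective one_ne_zero h4).symm
        · intro h4
          exact absurd (mem_range.2 hm) h4
      · have h4 : coeff (Finsupp.single m 1) F = 0 := by
          by_contra hne
          have h5 : m ∈ F.vars := (mem_vars_iff_mem_support m).2
            ⟨Finsupp.single m 1, mem_support_iff.2 hne, by
              rw [Finsupp.mem_support_iff, Finsupp.single_eq_same]
              exact one_ne_zero⟩
          exact hm (mem_range.1 (hF h5))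
        rw [h4, zero_sub, neg_eq_zero]
        refine Finset.sum_eq_zero fun m' hm' => ?_
        rw [if_neg]
        intro h5
        have h6 := Finsupp.single_left_injective one_ne_zero h5
        rw [mem_range] at hm'
        omega
  · rw [if_neg hd]
    have h3 : (0 : ℕ →₀ ℕ) ≠ α := by
      intro h3
      rw [← h3] at hd
      exact hd (by simp [dgr])
    rw [if_neg h3, sub_zero]
    rw [Finset.sum_eq_zero, sub_zero]
    intro m _
    rw [if_neg]
    intro h4
    rw [h4] at hd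
    apply hd
    unfold dgr
    rw [Finsupp.support_single _ one_ne_zero, Finset.sum_singleton,
      Finsupp.single_eq_same]

/-- **The affine approximation.** -/
theorem aff (n K a : ℕ) : ∃ (a' : ℕ) (c₀ : ℝ), ∀ (E t σ : ℝ) (g g₀ : ℕ → ℕ) (A B : ℕ → PN),
    1 ≤ E → c₀ ≤ E → 1 ≤ σ → Sy K t A → Sy K t B → Cls n g (E ^ a) A B →
    Cls n g₀ (E ^ a) A B → Lv n g g₀ σ (E ^ a) → ∀ u, 1 ≤ u → u ≤ n →
    (∀ m, |lc g A B u m| ≤ E ^ a') ∧ |lc0 g A B u| ≤ E ^ a' ∧
    ∀ b : ℕ → ℝ, b 0 = t → (∀ m, 1 ≤ m → m < u → |nat g A b m| ≤ E ^ a) →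
      |2 ^ g u * (eval b (B u) - eval b (A u)) -
        (lc0 g A B u + ∑ m ∈ Finset.Ico 1 u, lc g A B u m * nat g A b m)| ≤ E ^ a' / σ := by
  obtain ⟨a₁, c₁, h1⟩ := cls_coef n K a
  obtain ⟨K₂, hK₂⟩ : ∃ K₂ : ℕ, K₂ = K * (K + 1) ^ n + 1 := ⟨_, rfl⟩
  obtain ⟨Q, hQ⟩ : ∃ Q : ℕ, Q = ∑ u ∈ range (n + 1), (exs u K₂).card := ⟨_, rfl⟩
  obtain ⟨d, hd⟩ : ∃ d : ℕ, d = n * K₂ := ⟨_, rfl⟩
  refine ⟨a₁ + a * (d + 1) + a * K₂ + 1, max c₁ Q, ?_⟩
  intro E t σ g g₀ A B hE hc hσ hA hB hcl hcl₀ hL u hu1 hun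
  have hc1 : c₁ ≤ E := (le_max_left _ _).trans hc
  have hcQ : (Q : ℝ) ≤ E := (le_max_right _ _).trans hc
  have hE0 : 0 < E := by linarith
  have hp := pw1 hE a
  obtain ⟨F, hF⟩ : ∃ F : PN, F = chr A (B u - A u) := ⟨_, rfl⟩
  have vBA : (B u - A u).vars ⊆ range u := AdxRow.vars_sub_le (hB.tri u) (hA.tri u)
  have vF : F.vars ⊆ range u := by
    rw [hF]
    exact chr_vars hA.tri vBA
  have dF : F.totalDegree ≤ K₂ := by
    rw [hF]
    refine (chr_deg (m := u) hA.tri (fun i _ => hA.deg i) vBA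
      ((totalDegree_sub _ _).trans (max_le (hB.deg u) (hA.deg u)))).trans ?_
    rw [hK₂]
    have := Nat.mul_le_mul_left K (Nat.pow_le_pow_right (show 0 < K + 1 by omega) hun)
    omega
  have nF : 0 ∉ F.vars := by
    rw [hF]
    exact chr_nv hA (sub_nv (hB.nv u) (hA.nv u))
  have cF : ∀ α, |coeff α F| ≤ E ^ a₁ * (2 ^ Finsupp.weight g α / 2 ^ g u) := fun α => by
    rw [hF]
    exact h1 E t g A B hE hc1 hA hB hcl u hu1 hun α
  have cF₀ : ∀ α, |coeff α F| ≤ E ^ a₁ * (2 ^ Finsupp.weight g₀ α / 2 ^ g₀ u) := fun α => by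
    rw [hF]
    exact h1 E t g₀ A B hE hc1 hA hB hcl₀ u hu1 hun α
  have hle : E ^ a₁ ≤ E ^ (a₁ + a * (d + 1) + a * K₂ + 1) := pw hE (by omega)
  refine ⟨fun m => ?_, ?_, fun b hb0 hb => ?_⟩
  · unfold lc
    rw [← hF, abs_mul, abs_of_pos (by positivity)]
    have h2 := cF (Finsupp.single m 1)
    rw [weight_single] at h2
    calc 2 ^ g u / 2 ^ g m * |coeff (Finsupp.single m 1) F|
        ≤ 2 ^ g u / 2 ^ g m * (E ^ a₁ * (2 ^ g m / 2 ^ g u)) :=
          mul_le_mul_of_nonneg_left h2 (by positivity)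
      _ = E ^ a₁ := by field_simp
      _ ≤ _ := hle
  · unfold lc0
    rw [← hF, abs_mul, abs_of_pos (by positivity)]
    have h2 := cF 0
    rw [map_zero, pow_zero] at h2
    calc 2 ^ g u * |coeff 0 F| ≤ 2 ^ g u * (E ^ a₁ * (1 / 2 ^ g u)) :=
          mul_le_mul_of_nonneg_left h2 (by positivity)
      _ = E ^ a₁ := by field_simp
      _ ≤ _ := hle
  -- the coefficients of the nonlinear part
  have cG : ∀ α, |coeff α (nlp u F)| * (1 / 2) ^ Finsupp.weight g α ≤
      E ^ (a₁ + a * (d + 1)) / σ / 2 ^ g u := by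
    intro α
    rw [nlp_coeff vF]
    split_ifs with h2
    · rw [abs_zero, zero_mul]
      positivity
    by_cases hα0 : α 0 = 0
    swap
    · rw [coeff_nv nF hα0, abs_zero, zero_mul]
      positivity
    by_cases hα : α ∈ F.support
    swap
    · rw [notMem_support_iff.1 hα, abs_zero, zero_mul]
      positivity
    have h3 : ∀ m ∈ α.support, 1 ≤ m ∧ m ≤ n := by
      intro m hm
      have h4 : m < u := mem_range.1 (vF ((mem_vars_iff_mem_support m).2 ⟨α, hα, hm⟩))
      refine ⟨?_, by omega⟩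
      by_contra h5
      have h6 : m = 0 := by omega
      rw [h6, Finsupp.mem_support_iff] at hm
      exact hm hα0
    have h4 : (2 : ℝ) ^ Finsupp.weight g₀ α ≤ (E ^ a / σ) ^ dgr α * 2 ^ Finsupp.weight g α := by
      rw [pow_weight, pow_weight]
      unfold dgr
      rw [← Finset.prod_pow_eq_pow_sum, ← Finset.prod_mul_distrib]
      refine Finset.prod_le_prod (fun _ _ => by positivity) fun m hm => ?_
      rw [← mul_pow]
      refine pow_le_pow_left₀ (by positivity) ?_ _
      rw [div_mul_eq_mul_div, le_div_iff₀ (by linarith)]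
      have := (hL m (h3 m hm).1 (h3 m hm).2).2
      linarith
    have h5 : (2 : ℝ) ^ g u ≤ E ^ a * σ * 2 ^ g₀ u := (hL u hu1 hun).1
    have h6 : dgr α ≤ d := by
      rw [hd]
      unfold dgr
      have h7 : α.support ⊆ range u := fun m hm =>
        vF ((mem_vars_iff_mem_support m).2 ⟨α, hα, hm⟩)
      calc ∑ m ∈ α.support, α m ≤ ∑ _m ∈ α.support, K₂ := Finset.sum_le_sum fun m hm =>
            (monomial_le_degreeOf m hα).trans ((degreeOf_le_totalDegree F m).trans dF)
        _ = α.support.card * K₂ := by rw [Finset.sum_const, smul_eq_mul]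
        _ ≤ n * K₂ := by
            refine Nat.mul_le_mul_right _ ?_
            refine (Finset.card_le_card h7).trans ?_
            rw [card_range]
            exact hun
    have h7 : (E ^ a / σ) ^ dgr α * σ ≤ (E ^ a) ^ d / σ := by
      have h8 : 2 ≤ dgr α := by omega
      rw [div_pow]
      have h9 : σ ^ 2 ≤ σ ^ dgr α := pow_le_pow_right₀ hσ h8
      have h10 : (E ^ a) ^ dgr α ≤ (E ^ a) ^ d := pow_le_pow_right₀ hp h6
      have hσ0 : 0 < σ := by linarith
      calc (E ^ a) ^ dgr α / σ ^ dgr α * σ ≤ (E ^ a) ^ d / σ ^ 2 * σ := by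
            refine mul_le_mul_of_nonneg_right ?_ hσ0.le
            exact div_le_div₀ (by positivity) h10 (by positivity) h9
        _ = (E ^ a) ^ d / σ := by field_simp
    have h8 := cF₀ α
    have pg : (0 : ℝ) < 2 ^ Finsupp.weight g α := by positivity
    rw [half_pow, mul_one_div, div_le_iff₀ pg]
    refine h8.trans ?_
    rw [div_div, div_mul_eq_mul_div, le_div_iff₀ (by positivity)]
    calc E ^ a₁ * (2 ^ Finsupp.weight g₀ α / 2 ^ g₀ u) * (σ * 2 ^ g u)
        ≤ E ^ a₁ * (((E ^ a / σ) ^ dgr α * 2 ^ Finsupp.weight g α) / 2 ^ g₀ u) *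
            (σ * (E ^ a * σ * 2 ^ g₀ u)) := by
          refine mul_le_mul (mul_le_mul_of_nonneg_left (div_le_div_of_nonneg_right h4
            (by positivity)) (by positivity)) (mul_le_mul_of_nonneg_left h5 (by linarith))
            (by positivity) (by positivity)
      _ = E ^ a₁ * E ^ a * ((E ^ a / σ) ^ dgr α * σ) * σ * 2 ^ Finsupp.weight g α := by
          field_simp
      _ ≤ E ^ a₁ * E ^ a * ((E ^ a) ^ d / σ) * σ * 2 ^ Finsupp.weight g α := by
          refine mul_le_mul_of_nonneg_right (mul_le_mul_of_nonneg_right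
            (mul_le_mul_of_nonneg_left h7 (by positivity)) (by linarith)) pg.le
      _ = E ^ (a₁ + a * (d + 1)) * 2 ^ Finsupp.weight g α := by
          have hσ0 : σ ≠ 0 := by linarith
          rw [pow_add, pow_mul E a (d + 1), pow_succ (E ^ a) d]
          field_simp
  have dG : (nlp u F).totalDegree ≤ K₂ := nlp_deg dF (by omega)
  have hnG := nrm_le_coeff (nlp_vars vF) dG g (ρ := 1 / 2) (by norm_num) cG
  -- the values
  have hz0 : zs A b 0 = 0 := by
    unfold zs
    rw [hA.zero, eval_C, hb0, sub_self]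
  have hzm : ∀ m, zs A b m = nat g A b m / 2 ^ g m := fun m => by
    rw [nat_eq]
    field_simp
  have hev := eval_le_nrm (nlp_vars vF) dG g hp (b := zs A b) (fun i hi => by
    rcases Nat.eq_zero_or_pos i with h2 | h2
    · rw [h2, hz0, abs_zero]
      positivity
    · rw [hzm, abs_div, abs_of_pos (show (0 : ℝ) < 2 ^ g i by positivity)]
      exact div_le_div_of_nonneg_right (hb i h2 hi) (by positivity))
  have e1 : eval b (B u) - eval b (A u) = eval (zs A b) F := by
    rw [hF, chr_eval hA.tri, map_sub]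
  have e2 := nlp_eval u F (zs A b)
  have e3 : ∑ m ∈ range u, coeff (Finsupp.single m 1) F * zs A b m =
      ∑ m ∈ Finset.Ico 1 u, coeff (Finsupp.single m 1) F * zs A b m := by
    rw [Finset.range_eq_Ico, Finset.sum_eq_sum_Ico_succ_bot (by omega), hz0, mul_zero, zero_add]
  have e4 : 2 ^ g u * (eval b (B u) - eval b (A u)) -
      (lc0 g A B u + ∑ m ∈ Finset.Ico 1 u, lc g A B u m * nat g A b m) =
      2 ^ g u * eval (zs A b) (nlp u F) := by
    rw [e1, e2, e3]
    unfold lc0 lc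
    rw [← hF]
    have e5 : ∑ m ∈ Finset.Ico 1 u, 2 ^ g u / 2 ^ g m * coeff (Finsupp.single m 1) F *
        nat g A b m = 2 ^ g u * ∑ m ∈ Finset.Ico 1 u, coeff (Finsupp.single m 1) F * zs A b m := by
      rw [Finset.mul_sum]
      refine Finset.sum_congr rfl fun m _ => ?_
      rw [hzm]
      field_simp
    rw [e5]
    ring
  rw [e4, abs_mul, abs_of_pos (show (0 : ℝ) < 2 ^ g u by positivity)]
  have hcard : ((exs u K₂).card : ℝ) ≤ E := by
    refine le_trans ?_ hcQ
    rw [hQ]
    exact_mod_cast Finset.single_le_sum (f := fun u => (exs u K₂).card)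
      (fun _ _ => Nat.zero_le _) (mem_range.2 (by omega))
  have hσ0 : 0 < σ := by linarith
  calc 2 ^ g u * |eval (zs A b) (nlp u F)|
      ≤ 2 ^ g u * ((E ^ a) ^ K₂ * (E * (E ^ (a₁ + a * (d + 1)) / σ / 2 ^ g u))) := by
        refine mul_le_mul_of_nonneg_left (hev.trans (mul_le_mul_of_nonneg_left
          (hnG.trans ?_) (by positivity))) (by positivity)
        exact mul_le_mul_of_nonneg_right hcard (by positivity)
    _ = E ^ (a₁ + a * (d + 1) + a * K₂ + 1) / σ := by
        rw [← pow_mul, pow_succ, pow_add _ (a₁ + a * (d + 1)) (a * K₂)]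
        field_simp

/-- The linear coefficients from another place. -/
theorem lc_far (n K a : ℕ) : ∃ (a' : ℕ) (c₀ : ℝ), ∀ (E t : ℝ) (g g' : ℕ → ℕ) (A B : ℕ → PN),
    1 ≤ E → c₀ ≤ E → Sy K t A → Sy K t B → Cls n g' (E ^ a) A B → ∀ u, 1 ≤ u → u ≤ n → ∀ m,
    |lc g A B u m| ≤ E ^ a' * (2 ^ g u / 2 ^ g' u * (2 ^ g' m / 2 ^ g m)) := by
  obtain ⟨a₁, c₁, h1⟩ := cls_coef n K a
  refine ⟨a₁, c₁, ?_⟩
  intro E t g g' A B hE hc hA hB hcl u hu1 hun m
  have h2 := h1 E t g' A B hE hc hA hB hcl u hu1 hun (Finsupp.single m 1)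
  rw [weight_single] at h2
  unfold lc
  rw [abs_mul, abs_of_pos (show (0 : ℝ) < 2 ^ g u / 2 ^ g m by positivity)]
  calc 2 ^ g u / 2 ^ g m * |coeff (Finsupp.single m 1) (chr A (B u - A u))|
      ≤ 2 ^ g u / 2 ^ g m * (E ^ a₁ * (2 ^ g' m / 2 ^ g' u)) :=
        mul_le_mul_of_nonneg_left h2 (by positivity)
    _ = _ := by ring

end Pool.P4O
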