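import Pool.Agent.H41.GSD.Gev

/-!
# Calculus of close systems at one time

`Sy K t A`: a triangular system at the time `t`, of degree at most `K`. `Cls n g S A B`: the labels
`B l` are close to `A l` on the natural box of `A`. All bounds are powers of one number `E`.
-/

set_option autoImplicit false

namespace Pool.P4O

open Finset Real MvPolynomial
open Pool.STAT Pool.MIC.Frm Pool.MIC7 Pool.FRM

/-- A triangular system at the time `t`. -/
structure Sy (K : ℕ) (t : ℝ) (A : ℕ → PN) : Prop where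
  tri : TriN A
  deg : ∀ l, (A l).totalDegree ≤ K
  zero : A 0 = C t
  nv : ∀ l, 0 ∉ (A l).vars

/-- `B` is close to `A` on the natural box of `A`. -/
def Cls (n : ℕ) (g : ℕ → ℕ) (S : ℝ) (A B : ℕ → PN) : Prop :=
  ∀ l, 1 ≤ l → l ≤ n → ∀ b : ℕ → ℝ, (∀ k < l, |nat g A b k| ≤ 1) →
    |eval b (A l) - eval b (B l)| ≤ S / 2 ^ g l

theorem sy_fz {K : ℕ} {Ψ : ℕ → PN} (h : TriN Ψ) (d : ∀ l, (Ψ l).totalDegree ≤ K) (t : ℝ) :
    Sy K t (fz t Ψ) := by
  refine ⟨tri_fz h t, fun l => deg_fz (d l) t, fz_zero t Ψ, fun l => ?_⟩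
  rcases Nat.eq_zero_or_pos l with h0 | h0
  · rw [h0, fz_zero, vars_C]
    exact Finset.notMem_empty 0
  · rw [fz_pos t Ψ h0]
    intro h1
    obtain ⟨i, _, hi⟩ := mem_vars_bind₁ (tx t) (Ψ l) h1
    unfold tx at hi
    split_ifs at hi with h2
    · rw [vars_C] at hi
      exact Finset.notMem_empty 0 hi
    · rw [vars_X, Finset.mem_singleton] at hi
      exact h2 hi.symm

theorem Sy.mono {K K' : ℕ} {t : ℝ} {A : ℕ → PN} (h : Sy K t A) (hK : K ≤ K') : Sy K' t A :=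
  ⟨h.tri, fun l => (h.deg l).trans hK, h.zero, h.nv⟩

theorem Cls.mono {n : ℕ} {g : ℕ → ℕ} {S S' : ℝ} {A B : ℕ → PN} (h : Cls n g S A B) (hS : S ≤ S') :
    Cls n g S' A B := fun l h1 h2 b hb =>
  (h l h1 h2 b hb).trans (div_le_div_of_nonneg_right hS (by positivity))

/-- Constants are absorbed by the base. -/
theorem absorb (C : ℝ) (D a : ℕ) : ∃ (a' : ℕ) (c₀ : ℝ), ∀ E : ℝ, 1 ≤ E → c₀ ≤ E →
    C * (E ^ a) ^ D ≤ E ^ a' := by
  refine ⟨a * D + 1, C, fun E h1 h => ?_⟩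
  rw [← pow_mul, pow_succ, mul_comm (E ^ (a * D))]
  exact mul_le_mul_of_nonneg_right h (by positivity)

theorem pw {E : ℝ} (hE : 1 ≤ E) {a a' : ℕ} (h : a ≤ a') : E ^ a ≤ E ^ a' :=
  pow_le_pow_right₀ hE h

theorem pw1 {E : ℝ} (hE : 1 ≤ E) (a : ℕ) : 1 ≤ E ^ a := one_le_pow₀ hE

/-- **Two systems close to a third one.** -/
theorem cls_nbr (n K a : ℕ) : ∃ (a' : ℕ) (c₀ : ℝ), ∀ (E t : ℝ) (g : ℕ → ℕ) (A P Q : ℕ → PN),
    1 ≤ E → c₀ ≤ E → Sy K t A → Sy K t P → Sy K t Q → Cls n g (E ^ a) A P →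
    Cls n g (E ^ a) A Q → Cls n g (E ^ a') P Q := by
  obtain ⟨C, D, hC, h⟩ := nbr n K
  obtain ⟨a', c₀, h'⟩ := absorb C D a
  refine ⟨a', c₀, ?_⟩
  intro E t g A P Q h1 h2 hA hP hQ h3 h4 l hl1 hln b hb
  have hp := pw1 h1 a
  have key := h g g g A P Q (E ^ a) hp hA.tri hP.tri hQ.tri (fun i _ => hA.deg i)
    (fun i _ => hP.deg i) (fun i _ => hQ.deg i) (by rw [hA.zero, hP.zero])
    (fun i _ => le_mul_of_one_le_left (by positivity) hp)
    (fun i _ => le_mul_of_one_le_left (by positivity) hp)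
    (fun l h5 h6 b hb => ⟨h3 l h5 h6 b hb, h4 l h5 h6 b hb⟩) l hl1 hln b hb
  exact key.trans (div_le_div_of_nonneg_right (h' E h1 h2) (by positivity))

theorem cls_self {n : ℕ} {g : ℕ → ℕ} {S : ℝ} (A : ℕ → PN) (hS : 0 ≤ S) : Cls n g S A A :=
  fun l _ _ b _ => by
    rw [sub_self, abs_zero]
    positivity

theorem cls_sym (n K a : ℕ) : ∃ (a' : ℕ) (c₀ : ℝ), ∀ (E t : ℝ) (g : ℕ → ℕ) (A P : ℕ → PN),
    1 ≤ E → c₀ ≤ E → Sy K t A → Sy K t P → Cls n g (E ^ a) A P → Cls n g (E ^ a') P A := by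
  obtain ⟨a', c₀, h⟩ := cls_nbr n K a
  exact ⟨a', c₀, fun E t g A P h1 h2 hA hP h3 =>
    h E t g A P A h1 h2 hA hP hA h3 (cls_self A (by positivity))⟩

/-- **Transitivity.** -/
theorem cls_trans (n K a : ℕ) : ∃ (a' : ℕ) (c₀ : ℝ), ∀ (E t : ℝ) (g : ℕ → ℕ) (A B P : ℕ → PN),
    1 ≤ E → c₀ ≤ E → Sy K t A → Sy K t B → Sy K t P → Cls n g (E ^ a) A B →
    Cls n g (E ^ a) B P → Cls n g (E ^ a') A P := by
  obtain ⟨a₁, c₁, h1⟩ := cls_sym n K a
  obtain ⟨a₂, c₂, h2⟩ := cls_nbr n K (a₁ + a)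
  refine ⟨a₂, max c₁ c₂, ?_⟩
  intro E t g A B P hE hc hA hB hP h3 h4
  have e1 := (h1 E t g A B hE ((le_max_left _ _).trans hc) hA hB h3).mono
    (pw hE (show a₁ ≤ a₁ + a by omega))
  have e2 := h4.mono (pw hE (show a ≤ a₁ + a by omega))
  exact h2 E t g B A P hE ((le_max_right _ _).trans hc) hB hA hP e1 e2

/-- **Larger boxes.** -/
theorem cls_box (n K a : ℕ) : ∃ (a' : ℕ) (c₀ : ℝ), ∀ (E t : ℝ) (g : ℕ → ℕ) (A B : ℕ → PN),
    1 ≤ E → c₀ ≤ E → Sy K t A → Sy K t B → Cls n g (E ^ a) A B → ∀ l, 1 ≤ l → l ≤ n →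
    ∀ b : ℕ → ℝ, (∀ k < l, |nat g A b k| ≤ E ^ a) →
    |eval b (A l) - eval b (B l)| ≤ E ^ a' / 2 ^ g l := by
  choose C D hC h using fun m => grow_fr m K
  obtain ⟨C₁, hC₁⟩ : ∃ C₁ : ℝ, C₁ = ∑ m ∈ range (n + 1), C m := ⟨_, rfl⟩
  obtain ⟨D₁, hD₁⟩ : ∃ D₁ : ℕ, D₁ = ∑ m ∈ range (n + 1), D m := ⟨_, rfl⟩
  refine ⟨a * D₁ + a + 1, C₁, ?_⟩
  intro E t g A B hE hc hA hB hcl l h1 hln b hb
  have hp := pw1 hE a
  have key := h l g A (A l - B l) (E ^ a / 2 ^ g l) (E ^ a) hA.tri (fun i _ => hA.deg i) hp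
    (AdxRow.vars_sub_le (hA.tri l) (hB.tri l))
    ((totalDegree_sub _ _).trans (max_le (hA.deg l) (hB.deg l)))
    (fun b hb => by
      rw [map_sub]
      exact hcl l h1 hln b hb) b hb
  rw [map_sub] at key
  refine key.trans ?_
  have e1 : C l ≤ C₁ := by
    rw [hC₁]
    exact Finset.single_le_sum (f := C) (fun m _ => by linarith [hC m])
      (mem_range.2 (by omega))
  have e2 : D l ≤ D₁ := by
    rw [hD₁]
    exact Finset.single_le_sum (f := D) (fun m _ => Nat.zero_le _) (mem_range.2 (by omega))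
  have e3 : C l * (E ^ a) ^ D l ≤ E * (E ^ a) ^ D₁ :=
    mul_le_mul (e1.trans hc) (pow_le_pow_right₀ hp e2) (by positivity) (by linarith)
  calc C l * (E ^ a) ^ D l * (E ^ a / 2 ^ g l) ≤ E * (E ^ a) ^ D₁ * (E ^ a / 2 ^ g l) :=
        mul_le_mul_of_nonneg_right e3 (by positivity)
    _ = E ^ (a * D₁ + a + 1) / 2 ^ g l := by
        rw [← pow_mul, pow_add, pow_add, pow_one]
        ring

/-- **The coefficients.** -/
theorem cls_coef (n K a : ℕ) : ∃ (a' : ℕ) (c₀ : ℝ), ∀ (E t : ℝ) (g : ℕ → ℕ) (A B : ℕ → PN),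
    1 ≤ E → c₀ ≤ E → Sy K t A → Sy K t B → Cls n g (E ^ a) A B → ∀ l, 1 ≤ l → l ≤ n →
    ∀ α : ℕ →₀ ℕ, |coeff α (chr A (B l - A l))| ≤ E ^ a' * (2 ^ Finsupp.weight g α / 2 ^ g l) := by
  choose C D hC h using fun m => step m K
  obtain ⟨C₁, hC₁⟩ : ∃ C₁ : ℝ, C₁ = ∑ m ∈ range (n + 1), C m := ⟨_, rfl⟩
  refine ⟨a + 1, C₁, ?_⟩
  intro E t g A B hE hc hA hB hcl l h1 hln α
  have hp := pw1 hE a
  have key := h l g A A (B l - A l) (E ^ a / 2 ^ g l) 1 hA.tri hA.tri (fun i _ => hA.deg i)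
    (fun i _ => hA.deg i) (AdxRow.vars_sub_le (hB.tri l) (hA.tri l))
    ((totalDegree_sub _ _).trans (max_le (hB.deg l) (hA.deg l))) le_rfl
    (fun k _ => by
      rw [sub_self]
      unfold chr
      rw [map_zero]
      have : nrm g (1 / 2) (0 : PN) = 0 := by
        unfold nrm
        rw [support_zero, Finset.sum_empty]
      rw [this]
      positivity)
    (fun b hb => by
      rw [map_sub, abs_sub_comm]
      exact hcl l h1 hln b hb)
  rw [one_pow, mul_one] at key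
  have e0 := (coeff_le_nrm g (ρ := 1 / 2) (by norm_num) (chr A (B l - A l)) α).trans key
  rw [half_pow, mul_one_div, div_le_iff₀ (by positivity)] at e0
  have e1 : C l ≤ C₁ := by
    rw [hC₁]
    exact Finset.single_le_sum (f := C) (fun m _ => by linarith [hC m])
      (mem_range.2 (by omega))
  refine e0.trans ?_
  calc C l * (E ^ a / 2 ^ g l) * 2 ^ Finsupp.weight g α
      ≤ E * (E ^ a / 2 ^ g l) * 2 ^ Finsupp.weight g α :=
        mul_le_mul_of_nonneg_right (mul_le_mul_of_nonneg_right (e1.trans hc) (by positivity))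
          (by positivity)
    _ = E ^ (a + 1) * (2 ^ Finsupp.weight g α / 2 ^ g l) := by
        rw [pow_succ]
        ring

/-! ### No time in the chart -/

theorem nuc_nv {K : ℕ} {t : ℝ} {A : ℕ → PN} (hA : Sy K t A) (g : ℕ → ℕ) :
    ∀ k, 1 ≤ k → 0 ∉ (nuc g A k).vars := by
  intro k
  induction k using Nat.strong_induction_on with
  | _ k ih =>
    intro hk h
    rw [AdxRow.nuc_eq hA.tri] at h
    rcases Finset.mem_union.1 (vars_add_subset _ _ h) with h1 | h1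
    · obtain ⟨i, hi, hi0⟩ := mem_vars_bind₁ (nuc g A) (A k) h1
      have h2 : i < k := mem_range.1 (hA.tri k hi)
      have h3 : i ≠ 0 := by
        intro h3
        rw [h3] at hi
        exact hA.nv k hi
      exact ih i h2 (by omega) hi0
    · rcases Finset.mem_union.1 (vars_mul _ _ h1) with h2 | h2
      · rw [vars_C] at h2
        exact Finset.notMem_empty 0 h2
      · rw [vars_X, Finset.mem_singleton] at h2
        omega

theorem chr_nv {K : ℕ} {t : ℝ} {A : ℕ → PN} (hA : Sy K t A) {F : PN} (hF : 0 ∉ F.vars) :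
    0 ∉ (chr A F).vars := by
  intro h
  unfold chr at h
  obtain ⟨i, hi, hi0⟩ := mem_vars_bind₁ _ _ h
  have h3 : i ≠ 0 := by
    intro h3
    rw [h3] at hi
    exact hF hi
  exact nuc_nv hA _ i (by omega) hi0

theorem sub_nv {F G : PN} (hF : 0 ∉ F.vars) (hG : 0 ∉ G.vars) : 0 ∉ (F - G).vars := by
  intro h
  rw [sub_eq_add_neg] at h
  rcases Finset.mem_union.1 (vars_add_subset _ _ h) with h1 | h1
  · exact hF h1
  · rw [vars_neg] at h1
    exact hG h1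

theorem coeff_nv {F : PN} (hF : 0 ∉ F.vars) {α : ℕ →₀ ℕ} (hα : α 0 ≠ 0) : coeff α F = 0 := by
  by_contra h
  refine hF ((mem_vars_iff_mem_support 0).2 ⟨α, mem_support_iff.2 h, ?_⟩)
  exact Finsupp.mem_support_iff.2 hα

end Pool.P4O
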