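import Pool.Agent.H38.P4.Aff

/-!
# Points on a sheet

`P` and `V` are close at the levels `g`, `V` and `A` are close at the levels `gR`. The coordinates
in `Sl` are finer at `g`, the others are finer at `gR`. A point with the coordinates `Sl` natural
over `P` and the others on the sheet of `A` is natural over `P` at `g` and over `V` at `gR`.
-/

set_option autoImplicit false

namespace Pool.P4O

open Finset Real MvPolynomial
open Pool.STAT Pool.MIC.Frm Pool.MIC7 Pool.FRM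

theorem nat_zero_t {K : ℕ} {t : ℝ} {A : ℕ → PN} (hA : Sy K t A) (g : ℕ → ℕ) {b : ℕ → ℝ}
    (hb : b 0 = t) : nat g A b 0 = 0 := by
  unfold nat
  rw [hA.zero, eval_C, hb, sub_self, mul_zero]

theorem sheet_aux (n K a : ℕ) : ∀ m, m ≤ n + 1 → ∃ (a' : ℕ) (c₀ : ℝ),
    ∀ (E t : ℝ) (g gR : ℕ → ℕ) (Sl : ℕ → Prop) (P V A : ℕ → PN), 1 ≤ E → c₀ ≤ E →
      Sy K t P → Sy K t V → Sy K t A → Cls n g (E ^ a) P V → Cls n gR (E ^ a) V A →
      (∀ l, 1 ≤ l → l ≤ n → (Sl l → (2 : ℝ) ^ gR l ≤ E ^ a * 2 ^ g l) ∧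
        (¬ Sl l → (2 : ℝ) ^ g l ≤ E ^ a * 2 ^ gR l)) →
      ∀ b : ℕ → ℝ, b 0 = t → (∀ l, 1 ≤ l → l < m → Sl l → |nat g P b l| ≤ E ^ a) →
        (∀ l, 1 ≤ l → l < m → ¬ Sl l → b l = eval b (A l)) →
        ∀ l, 1 ≤ l → l < m → |nat g P b l| ≤ E ^ a' ∧ |nat gR V b l| ≤ E ^ a' := by
  intro m
  induction m with
  | zero =>
    intro _
    exact ⟨0, 0, fun _ _ _ _ _ _ _ _ _ _ _ _ _ _ _ _ _ _ _ _ l _ h => absurd h (Nat.not_lt_zero _)⟩
  | succ m ih =>
    intro hm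
    obtain ⟨a₁, c₁, h1⟩ := ih (by omega)
    obtain ⟨a₂, c₂, h2⟩ := cls_box n K (a + a₁)
    refine ⟨a₁ + a₂ + 2 * a + 1, max (max c₁ c₂) 2, ?_⟩
    intro E t g gR Sl P V A hE hc hP hV hA hPV hVA hlev b hb0 hsl hgr l hl hlm
    have hc1 : c₁ ≤ E := (le_max_left _ _).trans ((le_max_left _ _).trans hc)
    have hc2 : c₂ ≤ E := (le_max_right _ _).trans ((le_max_left _ _).trans hc)
    have hc3 : 2 ≤ E := (le_max_right _ _).trans hc
    have key := h1 E t g gR Sl P V A hE hc1 hP hV hA hPV hVA hlev b hb0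
      (fun l h3 h4 => hsl l h3 (by omega)) (fun l h3 h4 => hgr l h3 (by omega))
    by_cases hlt : l < m
    · obtain ⟨h3, h4⟩ := key l hl hlt
      have h5 : E ^ a₁ ≤ E ^ (a₁ + a₂ + 2 * a + 1) := pw hE (by omega)
      exact ⟨h3.trans h5, h4.trans h5⟩
    have hlm' : l = m := by omega
    subst hlm'
    have hln : l ≤ n := by omega
    -- the boxes
    have hbP : ∀ k < l, |nat g P b k| ≤ E ^ (a + a₁) := by
      intro k hk
      rcases Nat.eq_zero_or_pos k with h3 | h3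
      · rw [h3, nat_zero_t hP g hb0, abs_zero]
        positivity
      · exact (key k h3 hk).1.trans (pw hE (by omega))
    have hbV : ∀ k < l, |nat gR V b k| ≤ E ^ (a + a₁) := by
      intro k hk
      rcases Nat.eq_zero_or_pos k with h3 | h3
      · rw [h3, nat_zero_t hV gR hb0, abs_zero]
        positivity
      · exact (key k h3 hk).2.trans (pw hE (by omega))
    have e1 := h2 E t g P V hE hc2 hP hV (hPV.mono (pw hE (by omega))) l hl hln b hbP
    have e2 := h2 E t gR V A hE hc2 hV hA (hVA.mono (pw hE (by omega))) l hl hln b hbV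
    have pg : (0 : ℝ) < 2 ^ g l := by positivity
    have pR : (0 : ℝ) < 2 ^ gR l := by positivity
    have q1 : (1 : ℝ) ≤ E ^ a₁ := pw1 hE a₁
    have q2 : (1 : ℝ) ≤ E ^ a₂ := pw1 hE a₂
    have q3 : (1 : ℝ) ≤ E ^ a := pw1 hE a
    have q4 : E ^ a * E ^ a₂ + E ^ a₂ ≤ E ^ (a₁ + a₂ + 2 * a + 1) := by
      have h3 : E ^ (a₁ + a₂ + 2 * a + 1) = E * (E ^ a * E ^ a₂) * (E ^ a * E ^ a₁) := by ring
      have h4 : E ^ a₂ ≤ E ^ a * E ^ a₂ := le_mul_of_one_le_left (by positivity) q3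
      have h5 : 1 ≤ E ^ a * E ^ a₁ := by nlinarith
      have h6 : (0 : ℝ) < E ^ a * E ^ a₂ := by positivity
      have h7 : 2 * (E ^ a * E ^ a₂) ≤ E * (E ^ a * E ^ a₂) :=
        mul_le_mul_of_nonneg_right hc3 h6.le
      have h8 : E * (E ^ a * E ^ a₂) ≤ E * (E ^ a * E ^ a₂) * (E ^ a * E ^ a₁) :=
        le_mul_of_one_le_right (by positivity) h5
      rw [h3]
      linarith
    have q5 : E ^ a * E ^ a + E ^ a * E ^ a₂ ≤ E ^ (a₁ + a₂ + 2 * a + 1) := by
      have h3 : E ^ (a₁ + a₂ + 2 * a + 1) = E * (E ^ a * E ^ a * E ^ a₂) * E ^ a₁ := by ring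
      have h4 : E ^ a * E ^ a ≤ E ^ a * E ^ a * E ^ a₂ :=
        le_mul_of_one_le_right (by positivity) q2
      have h5 : E ^ a * E ^ a₂ ≤ E ^ a * E ^ a * E ^ a₂ := by
        have : E ^ a * E ^ a₂ ≤ E ^ a * (E ^ a * E ^ a₂) :=
          le_mul_of_one_le_left (by positivity) q3
        linarith
      have h6 : (0 : ℝ) < E ^ a * E ^ a * E ^ a₂ := by positivity
      have h7 : 2 * (E ^ a * E ^ a * E ^ a₂) ≤ E * (E ^ a * E ^ a * E ^ a₂) :=
        mul_le_mul_of_nonneg_right hc3 h6.le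
      have h8 : E * (E ^ a * E ^ a * E ^ a₂) ≤ E * (E ^ a * E ^ a * E ^ a₂) * E ^ a₁ :=
        le_mul_of_one_le_right (by positivity) q1
      rw [h3]
      linarith
    have q6 : E ^ a ≤ E ^ (a₁ + a₂ + 2 * a + 1) := pw hE (by omega)
    have q7 : E ^ a₂ ≤ E ^ (a₁ + a₂ + 2 * a + 1) := pw hE (by omega)
    by_cases hS : Sl l
    · have h3 := hsl l hl (by omega) hS
      refine ⟨h3.trans q6, ?_⟩
      have h4 := (hlev l hl hln).1 hS
      have h5 : |b l - eval b (P l)| ≤ E ^ a / 2 ^ g l := by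
        unfold nat at h3
        rw [abs_mul, abs_of_pos pg] at h3
        rw [le_div_iff₀ pg]
        linarith
      unfold nat
      rw [abs_mul, abs_of_pos pR]
      have h6 : |b l - eval b (V l)| ≤ E ^ a / 2 ^ g l + E ^ a₂ / 2 ^ g l := by
        have : b l - eval b (V l) = (b l - eval b (P l)) + (eval b (P l) - eval b (V l)) := by ring
        rw [this]
        exact (abs_add_le _ _).trans (add_le_add h5 e1)
      calc 2 ^ gR l * |b l - eval b (V l)|
          ≤ (E ^ a * 2 ^ g l) * (E ^ a / 2 ^ g l + E ^ a₂ / 2 ^ g l) :=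
            mul_le_mul h4 h6 (abs_nonneg _) (by positivity)
        _ = E ^ a * E ^ a + E ^ a * E ^ a₂ := by field_simp
        _ ≤ _ := q5
    · have h3 := hgr l hl (by omega) hS
      have h4 := (hlev l hl hln).2 hS
      have h5 : |b l - eval b (V l)| ≤ E ^ a₂ / 2 ^ gR l := by
        rw [h3, abs_sub_comm]
        exact e2
      constructor
      · unfold nat
        rw [abs_mul, abs_of_pos pg]
        have h6 : |b l - eval b (P l)| ≤ E ^ a₂ / 2 ^ gR l + E ^ a₂ / 2 ^ g l := by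
          have : b l - eval b (P l) = (b l - eval b (V l)) - (eval b (P l) - eval b (V l)) := by
            ring
          rw [this]
          exact (abs_sub _ _).trans (add_le_add h5 e1)
        calc 2 ^ g l * |b l - eval b (P l)|
            ≤ 2 ^ g l * (E ^ a₂ / 2 ^ gR l + E ^ a₂ / 2 ^ g l) :=
              mul_le_mul_of_nonneg_left h6 pg.le
          _ = 2 ^ g l * (E ^ a₂ / 2 ^ gR l) + E ^ a₂ := by field_simp
          _ ≤ (E ^ a * 2 ^ gR l) * (E ^ a₂ / 2 ^ gR l) + E ^ a₂ := by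
              have := mul_le_mul_of_nonneg_right h4
                (show (0 : ℝ) ≤ E ^ a₂ / 2 ^ gR l by positivity)
              linarith
          _ = E ^ a * E ^ a₂ + E ^ a₂ := by field_simp
          _ ≤ _ := q4
      · unfold nat
        rw [abs_mul, abs_of_pos pR]
        calc 2 ^ gR l * |b l - eval b (V l)| ≤ 2 ^ gR l * (E ^ a₂ / 2 ^ gR l) :=
              mul_le_mul_of_nonneg_left h5 pR.le
          _ = E ^ a₂ := by field_simp
          _ ≤ _ := q7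

/-- **Points on a sheet.** -/
theorem sheet (n K a : ℕ) : ∃ (a' : ℕ) (c₀ : ℝ),
    ∀ (E t : ℝ) (g gR : ℕ → ℕ) (Sl : ℕ → Prop) (P V A : ℕ → PN), 1 ≤ E → c₀ ≤ E →
      Sy K t P → Sy K t V → Sy K t A → Cls n g (E ^ a) P V → Cls n gR (E ^ a) V A →
      (∀ l, 1 ≤ l → l ≤ n → (Sl l → (2 : ℝ) ^ gR l ≤ E ^ a * 2 ^ g l) ∧
        (¬ Sl l → (2 : ℝ) ^ g l ≤ E ^ a * 2 ^ gR l)) →
      ∀ b : ℕ → ℝ, b 0 = t → (∀ l, 1 ≤ l → l ≤ n → Sl l → |nat g P b l| ≤ E ^ a) →
        (∀ l, 1 ≤ l → l ≤ n → ¬ Sl l → b l = eval b (A l)) →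
        ∀ l, 1 ≤ l → l ≤ n → |nat g P b l| ≤ E ^ a' ∧ |nat gR V b l| ≤ E ^ a' := by
  obtain ⟨a', c₀, h⟩ := sheet_aux n K a (n + 1) le_rfl
  refine ⟨a', c₀, ?_⟩
  intro E t g gR Sl P V A h1 h2 h3 h4 h5 h6 h7 h8 b h9 h10 h11 l hl hln
  exact h E t g gR Sl P V A h1 h2 h3 h4 h5 h6 h7 h8 b h9 (fun l h12 h13 => h10 l h12 (by omega))
    (fun l h12 h13 => h11 l h12 (by omega)) l hl (by omega)

end Pool.P4O
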