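import Pool.Agent.H38.P4.Lin
import Pool.Agent.H38.P4.Sht

/-!
# Own slopes, in abstract close systems

`P` the closed frame, `V` the own frame, `A` the labels of the own sheet, `B` the labels which
determine the own slopes, `x` the own point.
-/

set_option autoImplicit false

namespace Pool.P4O

open Finset Real MvPolynomial
open Pool.STAT Pool.MIC.Frm Pool.MIC7 Pool.FRM

/-- Close systems at one sample. -/
structure Cel (n K a : ℕ) (E t σ Y : ℝ) (g g₀ gR gS : ℕ → ℕ) (Sl : ℕ → Prop)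
    (P V A B : ℕ → PN) (x : ℕ → ℝ) : Prop where
  hP : Sy K t P
  hV : Sy K t V
  hA : Sy K t A
  hB : Sy K t B
  PV : Cls n g (E ^ a) P V
  PV0 : Cls n g₀ (E ^ a) P V
  VA : Cls n gR (E ^ a) V A
  VB : Cls n gS (E ^ a) V B
  lv : Lv n g g₀ σ (E ^ a)
  Y1 : 1 ≤ Y
  Yσ : Y ≤ σ
  lsl : ∀ l, 1 ≤ l → l ≤ n → Sl l → (2 : ℝ) ^ gR l ≤ E ^ a * 2 ^ g l
  lgr : ∀ l, 1 ≤ l → l ≤ n → ¬ Sl l → Y * 2 ^ g l ≤ E ^ a * 2 ^ gR l
  lSS : ∀ u m, 1 ≤ u → u ≤ n → ¬ Sl u → 1 ≤ m → m ≤ n → Sl m →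
    (2 : ℝ) ^ g u / 2 ^ gS u * (2 ^ gS m / 2 ^ g m) ≤ E ^ a / Y
  x0 : x 0 = t
  xP : ∀ l, 1 ≤ l → l ≤ n → |nat g P x l| ≤ E ^ a
  xV : ∀ l, 1 ≤ l → l ≤ n → x l = eval x (V l)
  hSl : ∀ l, Sl l → 1 ≤ l ∧ l < n

/-- The own slopes. -/
noncomputable def sS (n : ℕ) (Sl : ℕ → Prop) (g : ℕ → ℕ) (P V : ℕ → PN) : ℕ → ℕ → ℝ :=
  SS n Sl (lc g P V)

theorem Lv.mono {n : ℕ} {g g₀ : ℕ → ℕ} {σ W W' : ℝ} (h : Lv n g g₀ σ W) (hσ : 0 ≤ σ)
    (hW : W ≤ W') : Lv n g g₀ σ W' := by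
  intro m h1 h2
  obtain ⟨h3, h4⟩ := h m h1 h2
  constructor
  · exact h3.trans (mul_le_mul_of_nonneg_right (mul_le_mul_of_nonneg_right hW hσ)
      (by positivity))
  · exact h4.trans (mul_le_mul_of_nonneg_right hW (by positivity))

/-- The bound of the linear lemma. -/
theorem lin_bd {n b : ℕ} {E₀ E : ℝ} (h1 : 1 ≤ E₀) (h2 : E₀ ≤ E) (hn : (n : ℝ) + 2 ≤ E) :
    ((n + 2) * E₀ ^ b) ^ n ≤ E ^ ((b + 1) * n) := by
  rw [pow_mul]
  refine pow_le_pow_left₀ (by positivity) ?_ n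
  rw [pow_succ, mul_comm (E ^ b)]
  exact mul_le_mul hn (pow_le_pow_left₀ (by linarith) h2 b) (by positivity) (by linarith)

/-- The bound of the slopes. -/
theorem sS_le (n K a : ℕ) : ∃ (a' : ℕ) (c₀ : ℝ), ∀ (E t σ Y : ℝ) (g g₀ gR gS : ℕ → ℕ)
    (Sl : ℕ → Prop) (P V A B : ℕ → PN) (x : ℕ → ℝ), 1 ≤ E → c₀ ≤ E →
    Cel n K a E t σ Y g g₀ gR gS Sl P V A B x → ∀ u k, |sS n Sl g P V u k| ≤ E ^ a' := by
  obtain ⟨a₁, c₁, h1⟩ := aff n K a
  refine ⟨(a₁ + 1) * n, max c₁ (n + 2), ?_⟩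
  intro E t σ Y g g₀ gR gS Sl P V A B x hE hc hC u k
  have hc1 : c₁ ≤ E := (le_max_left _ _).trans hc
  have hc2 : (n : ℝ) + 2 ≤ E := (le_max_right _ _).trans hc
  have h2 : ∀ u, 1 ≤ u → u ≤ n → ∀ m, |lc g P V u m| ≤ E ^ a₁ := fun u hu hun =>
    (h1 E t σ g g₀ P V hE hc1 (hC.Y1.trans hC.Yσ) hC.hP hC.hV hC.PV hC.PV0 hC.lv u hu hun).1
  exact (SS_le (pw1 hE a₁) h2 u k).trans (lin_bd hE le_rfl hc2)

open Classical in
/-- **The own sheet is affine over the slow coordinates.** -/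
theorem cel_b (n K a : ℕ) : ∃ (a' : ℕ) (c₀ : ℝ), ∀ (E₀ E t σ Y : ℝ) (g g₀ gR gS : ℕ → ℕ)
    (Sl : ℕ → Prop) (P V A B : ℕ → PN) (x : ℕ → ℝ), 1 ≤ E₀ → c₀ ≤ E₀ → E₀ ≤ E →
    Cel n K a E₀ t σ Y g g₀ gR gS Sl P V A B x → ∀ b : ℕ → ℝ, b 0 = t →
    (∀ l, 1 ≤ l → l ≤ n → Sl l → |nat g P b l| ≤ E ^ a) →
    (∀ l, 1 ≤ l → l ≤ n → ¬ Sl l → b l = eval b (A l)) → ∀ u, 1 ≤ u → u ≤ n → ¬ Sl u →
    |nat g P b u - (nat g P x u - ∑ k ∈ (range n).filter Sl, sS n Sl g P V u k * nat g P x k +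
      ∑ k ∈ (range n).filter Sl, sS n Sl g P V u k * nat g P b k)| ≤ E ^ a' / Y := by
  obtain ⟨a₂, c₂, h2⟩ := sheet n K a
  obtain ⟨a₁, c₁, h1⟩ := aff n K (a + a₂)
  refine ⟨(a₁ + 1) * n + (a₁ + (a + a₂) + 2), max (max c₁ c₂) (n + 2), ?_⟩
  intro E₀ E t σ Y g g₀ gR gS Sl P V A B x hE₀ hc hEE hC b hb0 hsl hgr u hu1 hun hSu
  have hE : 1 ≤ E := hE₀.trans hEE
  have hc1 : c₁ ≤ E₀ := (le_max_left _ _).trans ((le_max_left _ _).trans hc)
  have hc2 : c₂ ≤ E₀ := (le_max_right _ _).trans ((le_max_left _ _).trans hc)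
  have hc3 : (n : ℝ) + 2 ≤ E₀ := (le_max_right _ _).trans hc
  have hσ : 1 ≤ σ := hC.Y1.trans hC.Yσ
  have hY0 : 0 < Y := by linarith [hC.Y1]
  have mE : ∀ {c : ℕ}, E₀ ^ a ≤ E ^ (a + c) := fun {c} =>
    (pow_le_pow_left₀ (by linarith) hEE a).trans (pw hE (by omega))
  have mE0 : E₀ ^ a ≤ E ^ a := pow_le_pow_left₀ (by linarith) hEE a
  -- the box
  have key := h2 E t g gR Sl P V A hE (hc2.trans hEE) hC.hP hC.hV hC.hA (hC.PV.mono mE0)
    (hC.VA.mono mE0) (fun l h3 h4 => ⟨fun h5 => (hC.lsl l h3 h4 h5).trans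
      (mul_le_mul_of_nonneg_right mE0 (by positivity)), fun h5 => by
        refine le_trans ?_ ((hC.lgr l h3 h4 h5).trans
          (mul_le_mul_of_nonneg_right mE0 (by positivity)))
        exact le_mul_of_one_le_left (by positivity) hC.Y1⟩) b hb0 hsl hgr
  -- the affine approximation
  have a0 : ∀ u, 1 ≤ u → u ≤ n → ∀ m, |lc g P V u m| ≤ E₀ ^ a₁ := fun u hu hun =>
    (h1 E₀ t σ g g₀ P V hE₀ hc1 hσ hC.hP hC.hV (hC.PV.mono (pw hE₀ (by omega)))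
      (hC.PV0.mono (pw hE₀ (by omega))) (hC.lv.mono (by linarith) (pw hE₀ (by omega))) u hu hun).1
  have a1 : ∀ u, 1 ≤ u → u ≤ n → ∀ b : ℕ → ℝ, b 0 = t →
      (∀ m, 1 ≤ m → m < u → |nat g P b m| ≤ E ^ (a + a₂)) →
      |2 ^ g u * (eval b (V u) - eval b (P u)) -
        (lc0 g P V u + ∑ m ∈ Finset.Ico 1 u, lc g P V u m * nat g P b m)| ≤ E ^ a₁ / σ :=
    fun u hu hun => (h1 E t σ g g₀ P V hE (hc1.trans hEE) hσ hC.hP hC.hV (hC.PV.mono mE)
      (hC.PV0.mono mE) (hC.lv.mono (by linarith) mE) u hu hun).2.2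
  have q1 : (1 : ℝ) ≤ E ^ a₁ := pw1 hE a₁
  have q2 : (1 : ℝ) ≤ E ^ (a + a₂) := pw1 hE _
  have hE2 : 2 ≤ E := by
    have : (0 : ℝ) ≤ n := Nat.cast_nonneg n
    linarith
  -- the difference
  have hd : ∀ u, 1 ≤ u → u ≤ n → ¬ Sl u →
      |(nat g P b u - nat g P x u) - ∑ m ∈ Finset.Ico 1 u, lc g P V u m *
        (nat g P b m - nat g P x m)| ≤ E ^ (a₁ + (a + a₂) + 2) / Y := by
    intro u hu1 hun hSu
    have e1 := a1 u hu1 hun b hb0 (fun m h3 h4 => (key m h3 (by omega)).1.trans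
      (pw hE (by omega)))
    have e2 := a1 u hu1 hun x hC.x0 (fun m h3 h4 => (hC.xP m h3 (by omega)).trans mE)
    have pg : (0 : ℝ) < 2 ^ g u := by positivity
    have pR : (0 : ℝ) < 2 ^ gR u := by positivity
    have e3 : |2 ^ g u * (b u - eval b (V u))| ≤ E ^ (a + a₂) / Y := by
      have h3 := (key u hu1 hun).2
      unfold nat at h3
      have h4 := hC.lgr u hu1 hun hSu
      rw [abs_mul, abs_of_pos pR] at h3
      rw [abs_mul, abs_of_pos pg, le_div_iff₀ hY0]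
      calc 2 ^ g u * |b u - eval b (V u)| * Y = (Y * 2 ^ g u) * |b u - eval b (V u)| := by ring
        _ ≤ (E₀ ^ a * 2 ^ gR u) * |b u - eval b (V u)| :=
            mul_le_mul_of_nonneg_right h4 (abs_nonneg _)
        _ = E₀ ^ a * (2 ^ gR u * |b u - eval b (V u)|) := by ring
        _ ≤ E ^ a * E ^ a₂ := mul_le_mul mE0 h3 (by positivity) (by positivity)
        _ = E ^ (a + a₂) := (pow_add _ _ _).symm
    have e4 : nat g P x u = 2 ^ g u * (eval x (V u) - eval x (P u)) := by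
      unfold nat
      rw [← hC.xV u hu1 hun]
    have e5 : nat g P b u = 2 ^ g u * (eval b (V u) - eval b (P u)) +
        2 ^ g u * (b u - eval b (V u)) := by
      unfold nat
      ring
    have e6 : (nat g P b u - nat g P x u) - ∑ m ∈ Finset.Ico 1 u, lc g P V u m *
        (nat g P b m - nat g P x m) =
        (2 ^ g u * (eval b (V u) - eval b (P u)) -
          (lc0 g P V u + ∑ m ∈ Finset.Ico 1 u, lc g P V u m * nat g P b m)) -
        (2 ^ g u * (eval x (V u) - eval x (P u)) -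
          (lc0 g P V u + ∑ m ∈ Finset.Ico 1 u, lc g P V u m * nat g P x m)) +
        2 ^ g u * (b u - eval b (V u)) := by
      rw [e4, e5]
      simp_rw [mul_sub]
      rw [Finset.sum_sub_distrib]
      ring
    rw [e6]
    have e7 : E ^ a₁ / σ ≤ E ^ a₁ / Y := div_le_div_of_nonneg_left (by positivity) hY0 hC.Yσ
    refine (abs_add_le _ _).trans (le_trans (add_le_add ((abs_sub _ _).trans
      (add_le_add (e1.trans e7) (e2.trans e7))) e3) ?_)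
    rw [← add_div, ← add_div]
    refine div_le_div_of_nonneg_right ?_ hY0.le
    have e8 : E ^ (a₁ + (a + a₂) + 2) = E ^ a₁ * E ^ (a + a₂) * E ^ 2 := by
      rw [pow_add, pow_add]
    rw [e8]
    have e9 : E ^ a₁ ≤ E ^ a₁ * E ^ (a + a₂) := le_mul_of_one_le_right (by positivity) q2
    have e10 : E ^ (a + a₂) ≤ E ^ a₁ * E ^ (a + a₂) := le_mul_of_one_le_left (by positivity) q1
    have e11 : (4 : ℝ) ≤ E ^ 2 := by nlinarith
    have e12 : (0 : ℝ) < E ^ a₁ * E ^ (a + a₂) := by positivity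
    nlinarith
  have hlin := lin (x := fun m => nat g P b m - nat g P x m) hC.hSl (pw1 hE₀ a₁) a0
    (e := E ^ (a₁ + (a + a₂) + 2) / Y) (by positivity) hd u hu1 hun hSu
  have f1 : nat g P b u - (nat g P x u - ∑ k ∈ (range n).filter Sl, sS n Sl g P V u k *
      nat g P x k + ∑ k ∈ (range n).filter Sl, sS n Sl g P V u k * nat g P b k) =
      (nat g P b u - nat g P x u) - ∑ k ∈ (range n).filter Sl, SS n Sl (lc g P V) u k *
        (nat g P b k - nat g P x k) := by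
    unfold sS
    simp_rw [mul_sub]
    rw [Finset.sum_sub_distrib]
    ring
  rw [f1]
  refine hlin.trans ?_
  rw [pow_add E ((a₁ + 1) * n) (a₁ + (a + a₂) + 2), ← mul_div_assoc]
  refine div_le_div_of_nonneg_right ?_ hY0.le
  exact mul_le_mul_of_nonneg_right (lin_bd hE₀ hEE (hc3.trans hEE)) (by positivity)

/-- The height over the own sheet. -/
noncomputable def sN (n : ℕ) (Sl : ℕ → Prop) (g : ℕ → ℕ) (P V : ℕ → PN) (x : ℕ → ℝ) (u : ℕ) : ℝ :=
  open Classical in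
  nat g P x u - ∑ k ∈ (range n).filter Sl, sS n Sl g P V u k * nat g P x k

/-- Points on a sheet with given slow coordinates. -/
theorem mkpt {K : ℕ} {t : ℝ} {P A : ℕ → PN} (g : ℕ → ℕ) (Sl : ℕ → Prop) (hP : Sy K t P)
    (hA : Sy K t A) (ζ : ℕ → ℝ) : ∃ b : ℕ → ℝ, b 0 = t ∧
      (∀ l, 1 ≤ l → Sl l → nat g P b l = ζ l) ∧ ∀ l, 1 ≤ l → ¬ Sl l → b l = eval b (A l) := by
  classical
  obtain ⟨Q, hQ⟩ : ∃ Q : ℕ → PN, Q = fun l => if 1 ≤ l ∧ Sl l then P l else A l := ⟨_, rfl⟩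
  obtain ⟨ζ', hζ'⟩ : ∃ ζ' : ℕ → ℝ, ζ' = fun l => if 1 ≤ l ∧ Sl l then ζ l else 0 := ⟨_, rfl⟩
  have tQ : TriN Q := by
    intro l
    rw [hQ]
    change ((if 1 ≤ l ∧ Sl l then P l else A l : PN)).vars ⊆ range l
    split_ifs
    · exact hP.tri l
    · exact hA.tri l
  have h := pt_eq (g := g) tQ ζ'
  refine ⟨pt g Q ζ', ?_, fun l h1 h2 => ?_, fun l h1 h2 => ?_⟩
  · have h0 := h 0
    have e1 : Q 0 = C t := by
      rw [hQ]
      simp only
      rw [if_neg (by omega), hA.zero]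
    have e2 : ζ' 0 = 0 := by
      rw [hζ']
      simp
    rw [e1, e2, eval_C, zero_div, add_zero] at h0
    exact h0
  · have h0 := h l
    have e1 : Q l = P l := by
      rw [hQ]
      simp only
      rw [if_pos ⟨h1, h2⟩]
    have e2 : ζ' l = ζ l := by
      rw [hζ']
      simp only
      rw [if_pos ⟨h1, h2⟩]
    rw [e1, e2] at h0
    unfold nat
    rw [h0]
    field_simp
    ring
  · have h0 := h l
    have e1 : Q l = A l := by
      rw [hQ]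
      simp only
      rw [if_neg (fun h3 => h2 h3.2)]
    have e2 : ζ' l = 0 := by
      rw [hζ']
      simp only
      rw [if_neg (fun h3 => h2 h3.2)]
    rw [e1, e2, zero_div, add_zero] at h0
    exact h0

open Classical in
/-- The sum over the slow coordinates at a coordinate vector. -/
theorem sum_sing {n : ℕ} {Sl : ℕ → Prop} (hSl : ∀ l, Sl l → 1 ≤ l ∧ l < n) {k : ℕ} (hk : Sl k)
    {s x : ℕ → ℝ} (hx : ∀ l, Sl l → x l = if l = k then 1 else 0) :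
    ∑ l ∈ (range n).filter Sl, s l * x l = s k := by
  rw [Finset.sum_eq_single k]
  · rw [hx k hk, if_pos rfl, mul_one]
  · intro l hl hlk
    rw [hx l (Finset.mem_filter.1 hl).2, if_neg hlk, mul_zero]
  · intro h
    exact absurd (Finset.mem_filter.2 ⟨mem_range.2 (hSl k hk).2, hk⟩) h

open Classical in
theorem sum_zer {n : ℕ} {Sl : ℕ → Prop} {s x : ℕ → ℝ} (hx : ∀ l, Sl l → x l = 0) :
    ∑ l ∈ (range n).filter Sl, s l * x l = 0 :=
  Finset.sum_eq_zero fun l hl => by rw [hx l (Finset.mem_filter.1 hl).2, mul_zero]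

/-- **The labels of the own sheet know the own sheet.** -/
theorem cel_c (n K a : ℕ) : ∃ (a' : ℕ) (c₀ : ℝ), ∀ (E t σ Y : ℝ) (g g₀ gR gS : ℕ → ℕ)
    (Sl : ℕ → Prop) (P V V' A B B' : ℕ → PN) (x x' : ℕ → ℝ), 1 ≤ E → c₀ ≤ E →
    Cel n K a E t σ Y g g₀ gR gS Sl P V A B x → Cel n K a E t σ Y g g₀ gR gS Sl P V' A B' x' →
    ∀ u, 1 ≤ u → u ≤ n → ¬ Sl u →
      |sN n Sl g P V x u - sN n Sl g P V' x' u| ≤ E ^ a' / Y ∧
      ∀ k, Sl k → |sS n Sl g P V u k - sS n Sl g P V' u k| ≤ E ^ a' / Y := by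
  classical
  obtain ⟨a₁, c₁, h1⟩ := cel_b n K a
  refine ⟨a₁ + 2, max c₁ 2, ?_⟩
  intro E t σ Y g g₀ gR gS Sl P V V' A B B' x x' hE hc hC hC' u hu1 hun hSu
  have hc1 : c₁ ≤ E := (le_max_left _ _).trans hc
  have hE2 : 2 ≤ E := (le_max_right _ _).trans hc
  have hY0 : 0 < Y := by linarith [hC.Y1]
  -- one point
  have key : ∀ ζ : ℕ → ℝ, (∀ l, |ζ l| ≤ 1) → ∃ y : ℝ,
      |y - (sN n Sl g P V x u + ∑ k ∈ (range n).filter Sl, sS n Sl g P V u k * ζ k)| ≤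
        E ^ a₁ / Y ∧
      |y - (sN n Sl g P V' x' u + ∑ k ∈ (range n).filter Sl, sS n Sl g P V' u k * ζ k)| ≤
        E ^ a₁ / Y := by
    intro ζ hζ
    obtain ⟨b, hb0, hbs, hbg⟩ := mkpt g Sl hC.hP hC.hA ζ
    have hsl : ∀ l, 1 ≤ l → l ≤ n → Sl l → |nat g P b l| ≤ E ^ a := fun l h3 h4 h5 => by
      rw [hbs l h3 h5]
      exact (hζ l).trans (pw1 hE a)
    have e1 := h1 E E t σ Y g g₀ gR gS Sl P V A B x hE hc1 le_rfl hC b hb0 hsl
      (fun l h3 _ h5 => hbg l h3 h5) u hu1 hun hSu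
    have e2 := h1 E E t σ Y g g₀ gR gS Sl P V' A B' x' hE hc1 le_rfl hC' b hb0 hsl
      (fun l h3 _ h5 => hbg l h3 h5) u hu1 hun hSu
    refine ⟨nat g P b u, ?_, ?_⟩
    · have e3 : ∑ k ∈ (range n).filter Sl, sS n Sl g P V u k * nat g P b k =
          ∑ k ∈ (range n).filter Sl, sS n Sl g P V u k * ζ k :=
        Finset.sum_congr rfl fun k hk => by
          rw [hbs k (hC.hSl k (Finset.mem_filter.1 hk).2).1 (Finset.mem_filter.1 hk).2]
      rw [e3] at e1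
      exact e1
    · have e3 : ∑ k ∈ (range n).filter Sl, sS n Sl g P V' u k * nat g P b k =
          ∑ k ∈ (range n).filter Sl, sS n Sl g P V' u k * ζ k :=
        Finset.sum_congr rfl fun k hk => by
          rw [hbs k (hC.hSl k (Finset.mem_filter.1 hk).2).1 (Finset.mem_filter.1 hk).2]
      rw [e3] at e2
      exact e2
  have f : 4 * (E ^ a₁ / Y) ≤ E ^ (a₁ + 2) / Y := by
    rw [← mul_div_assoc]
    refine div_le_div_of_nonneg_right ?_ hY0.le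
    rw [pow_add, mul_comm]
    refine mul_le_mul_of_nonneg_left ?_ (by positivity)
    nlinarith
  have f0 : 0 ≤ E ^ a₁ / Y := by positivity
  obtain ⟨y, h2, h3⟩ := key (fun _ => 0) (fun l => by
    rw [abs_zero]
    exact zero_le_one)
  simp only [mul_zero, Finset.sum_const_zero, add_zero] at h2 h3
  have h4 : |sN n Sl g P V x u - sN n Sl g P V' x' u| ≤ 2 * (E ^ a₁ / Y) := by
    rw [abs_le] at h2 h3 ⊢
    constructor <;> linarith
  refine ⟨h4.trans (by linarith), fun k hk => ?_⟩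
  obtain ⟨y', h5, h6⟩ := key (fun l => if l = k then 1 else 0) (fun l => by
    split_ifs
    · rw [abs_one]
    · rw [abs_zero]
      exact zero_le_one)
  rw [sum_sing hC.hSl hk (x := fun l => if l = k then (1 : ℝ) else 0) (fun _ _ => rfl)] at h5 h6
  refine le_trans ?_ f
  rw [abs_le] at h4 h5 h6 ⊢
  constructor <;> linarith

end Pool.P4O
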