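import Mathlib

/-!
# Triangular linear relations

`x u = Σ_{m < u} c u m * x m` for the `u` off `Sl` up to `e`: `x u = Σ_{k ∈ Sl} SS u k * x k` up
to a multiple of `e`.
-/

set_option autoImplicit false

namespace Pool.P4O

open Finset

open Classical in
/-- The coefficients over `Sl`. -/
noncomputable def TT (Sl : ℕ → Prop) (c : ℕ → ℕ → ℝ) (u k : ℕ) : ℝ :=
  if Sl u then (if u = k then 1 else 0)
  else ∑ m ∈ (Finset.Ico 1 u).attach, c u m.1 * TT Sl c m.1 k
termination_by u
decreasing_by exact (Finset.mem_Ico.1 m.2).2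

theorem TT_sl {Sl : ℕ → Prop} (c : ℕ → ℕ → ℝ) {u : ℕ} (h : Sl u) (k : ℕ) :
    TT Sl c u k = if u = k then 1 else 0 := by
  rw [TT, if_pos h]

theorem TT_gr {Sl : ℕ → Prop} (c : ℕ → ℕ → ℝ) {u : ℕ} (h : ¬ Sl u) (k : ℕ) :
    TT Sl c u k = ∑ m ∈ Finset.Ico 1 u, c u m * TT Sl c m k := by
  rw [TT, if_neg h, Finset.sum_attach (Finset.Ico 1 u) (fun m => c u m * TT Sl c m k)]

open Classical in
/-- The coefficients over `Sl`, off `Sl`. -/
noncomputable def SS (n : ℕ) (Sl : ℕ → Prop) (c : ℕ → ℕ → ℝ) (u k : ℕ) : ℝ :=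
  if u ≤ n ∧ ¬ Sl u then TT Sl c u k else 0

theorem TT_zero (Sl : ℕ → Prop) (c : ℕ → ℕ → ℝ) (k : ℕ) : ∀ u, u < k → TT Sl c u k = 0 := by
  intro u
  induction u using Nat.strong_induction_on with
  | _ u ih =>
    intro hu
    by_cases h : Sl u
    · rw [TT_sl c h, if_neg (by omega)]
    · rw [TT_gr c h]
      refine Finset.sum_eq_zero fun m hm => ?_
      rw [Finset.mem_Ico] at hm
      rw [ih m hm.2 (by omega), mul_zero]

theorem SS_zero (n : ℕ) (Sl : ℕ → Prop) (c : ℕ → ℕ → ℝ) (u k : ℕ) (h : u ≤ k) :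
    SS n Sl c u k = 0 := by
  unfold SS
  split_ifs with h1
  · rcases Nat.lt_or_ge u k with h2 | h2
    · exact TT_zero Sl c k u h2
    · rw [TT_gr c h1.2]
      refine Finset.sum_eq_zero fun m hm => ?_
      rw [Finset.mem_Ico] at hm
      rw [TT_zero Sl c k m (by omega), mul_zero]
  · rfl

/-- The sum over `m < u`. -/
theorem sum_le {u n : ℕ} {f : ℕ → ℝ} {A B : ℝ} (hu : u ≤ n) (hB : 0 ≤ B) (hA : 0 ≤ A)
    (h : ∀ m, 1 ≤ m → m < u → f m ≤ A * B) : ∑ m ∈ Finset.Ico 1 u, f m ≤ n * A * B := by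
  calc ∑ m ∈ Finset.Ico 1 u, f m ≤ ∑ _m ∈ Finset.Ico 1 u, A * B :=
        Finset.sum_le_sum fun m hm => by
          rw [Finset.mem_Ico] at hm
          exact h m hm.1 hm.2
    _ = ((Finset.Ico 1 u).card : ℝ) * (A * B) := by rw [Finset.sum_const, nsmul_eq_mul]
    _ ≤ n * (A * B) := by
        refine mul_le_mul_of_nonneg_right ?_ (by positivity)
        rw [Nat.card_Ico]
        exact_mod_cast (Nat.sub_le _ _).trans hu
    _ = n * A * B := by ring

theorem TT_le {n : ℕ} {Sl : ℕ → Prop} {c : ℕ → ℕ → ℝ} {A : ℝ} (hA : 1 ≤ A)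
    (h : ∀ u, 1 ≤ u → u ≤ n → ∀ m, |c u m| ≤ A) (k : ℕ) :
    ∀ u, u ≤ n → |TT Sl c u k| ≤ ((n + 2) * A) ^ u := by
  intro u
  have hb : 1 ≤ ((n : ℝ) + 2) * A := by
    have : (0 : ℝ) ≤ n := Nat.cast_nonneg n
    nlinarith
  induction u using Nat.strong_induction_on with
  | _ u ih =>
    intro hu
    by_cases h1 : Sl u
    · rw [TT_sl c h1]
      split_ifs
      · rw [abs_one]
        exact one_le_pow₀ hb
      · rw [abs_zero]
        positivity
    · rw [TT_gr c h1]
      rcases Nat.eq_zero_or_pos u with h0 | h0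
      · subst h0
        simp
      refine (Finset.abs_sum_le_sum_abs _ _).trans ?_
      refine (sum_le (B := ((n + 2) * A) ^ (u - 1)) hu (by positivity) (by positivity)
        (A := A) fun m hm1 hm2 => ?_).trans ?_
      · rw [abs_mul]
        exact mul_le_mul (h u h0 hu m) ((ih m hm2 (by omega)).trans
          (pow_le_pow_right₀ hb (by omega))) (abs_nonneg _) (by linarith)
      · obtain ⟨v, rfl⟩ : ∃ v, u = v + 1 := ⟨u - 1, by omega⟩
        rw [Nat.add_sub_cancel, pow_succ]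
        have h8 : (0 : ℝ) ≤ ((n + 2) * A) ^ v := by positivity
        calc (n : ℝ) * A * ((n + 2) * A) ^ v ≤ ((n + 2) * A) * ((n + 2) * A) ^ v :=
              mul_le_mul_of_nonneg_right (by nlinarith) h8
          _ = _ := mul_comm _ _

theorem SS_le {n : ℕ} {Sl : ℕ → Prop} {c : ℕ → ℕ → ℝ} {A : ℝ} (hA : 1 ≤ A)
    (h : ∀ u, 1 ≤ u → u ≤ n → ∀ m, |c u m| ≤ A) (u k : ℕ) :
    |SS n Sl c u k| ≤ ((n + 2) * A) ^ n := by
  have hb : 1 ≤ ((n : ℝ) + 2) * A := by
    have : (0 : ℝ) ≤ n := Nat.cast_nonneg n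
    nlinarith
  unfold SS
  split_ifs with h1
  · exact (TT_le hA h k u h1.1).trans (pow_le_pow_right₀ hb h1.1)
  · rw [abs_zero]
    positivity

open Classical in
/-- **The linear lemma.** -/
theorem lin {n : ℕ} {Sl : ℕ → Prop} (hS : ∀ l, Sl l → 1 ≤ l ∧ l < n) {c : ℕ → ℕ → ℝ} {A : ℝ}
    (hA : 1 ≤ A) (h : ∀ u, 1 ≤ u → u ≤ n → ∀ m, |c u m| ≤ A) {x : ℕ → ℝ} {e : ℝ} (he : 0 ≤ e)
    (hx : ∀ u, 1 ≤ u → u ≤ n → ¬ Sl u → |x u - ∑ m ∈ Finset.Ico 1 u, c u m * x m| ≤ e) :
    ∀ u, 1 ≤ u → u ≤ n → ¬ Sl u →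
      |x u - ∑ k ∈ (range n).filter Sl, SS n Sl c u k * x k| ≤ ((n + 2) * A) ^ n * e := by
  have hb : 1 ≤ ((n : ℝ) + 2) * A := by
    have : (0 : ℝ) ≤ n := Nat.cast_nonneg n
    nlinarith
  have key : ∀ u, 1 ≤ u → u ≤ n →
      |x u - ∑ k ∈ (range n).filter Sl, TT Sl c u k * x k| ≤ ((n + 2) * A) ^ u * e := by
    intro u
    induction u using Nat.strong_induction_on with
    | _ u ih =>
      intro hu1 hun
      by_cases h1 : Sl u
      · have h2 : ∑ k ∈ (range n).filter Sl, TT Sl c u k * x k = x u := by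
          rw [Finset.sum_eq_single u]
          · rw [TT_sl c h1, if_pos rfl, one_mul]
          · intro k _ hk
            rw [TT_sl c h1, if_neg (Ne.symm hk), zero_mul]
          · intro h3
            exact absurd (Finset.mem_filter.2 ⟨mem_range.2 (hS u h1).2, h1⟩) h3
        rw [h2, sub_self, abs_zero]
        positivity
      · have h2 : x u - ∑ k ∈ (range n).filter Sl, TT Sl c u k * x k =
            (x u - ∑ m ∈ Finset.Ico 1 u, c u m * x m) + ∑ m ∈ Finset.Ico 1 u,
              c u m * (x m - ∑ k ∈ (range n).filter Sl, TT Sl c m k * x k) := by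
          have h3 : ∑ k ∈ (range n).filter Sl, TT Sl c u k * x k =
              ∑ m ∈ Finset.Ico 1 u, c u m * ∑ k ∈ (range n).filter Sl, TT Sl c m k * x k := by
            simp_rw [TT_gr c h1, Finset.sum_mul, Finset.mul_sum]
            rw [Finset.sum_comm]
            refine Finset.sum_congr rfl fun m _ => Finset.sum_congr rfl fun k _ => ?_
            ring
          rw [h3]
          have h4 : ∑ m ∈ Finset.Ico 1 u,
              c u m * (x m - ∑ k ∈ (range n).filter Sl, TT Sl c m k * x k) =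
              ∑ m ∈ Finset.Ico 1 u, c u m * x m - ∑ m ∈ Finset.Ico 1 u,
                c u m * ∑ k ∈ (range n).filter Sl, TT Sl c m k * x k := by
            rw [← Finset.sum_sub_distrib]
            refine Finset.sum_congr rfl fun m _ => ?_
            ring
          rw [h4]
          ring
        rw [h2]
        refine (abs_add_le _ _).trans ?_
        have h5 := hx u hu1 hun h1
        obtain ⟨v, rfl⟩ : ∃ v, u = v + 1 := ⟨u - 1, by omega⟩
        have h6 : |∑ m ∈ Finset.Ico 1 (v + 1),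
            c (v + 1) m * (x m - ∑ k ∈ (range n).filter Sl, TT Sl c m k * x k)| ≤
            n * A * (((n + 2) * A) ^ v * e) := by
          refine (Finset.abs_sum_le_sum_abs _ _).trans ?_
          refine sum_le hun (by positivity) (by positivity) fun m hm1 hm2 => ?_
          rw [abs_mul]
          refine mul_le_mul (h _ hu1 hun m) ((ih m hm2 hm1 (by omega)).trans ?_) (abs_nonneg _)
            (by linarith)
          exact mul_le_mul_of_nonneg_right (pow_le_pow_right₀ hb (by omega)) he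
        have h7 : e ≤ ((n + 2) * A) ^ v * e := le_mul_of_one_le_left he (one_le_pow₀ hb)
        have h8 : (0 : ℝ) ≤ ((n + 2) * A) ^ v * e := by positivity
        have h9 : (((n : ℝ) + 2) * A) ^ (v + 1) * e =
            (n * A + 2 * A) * (((n + 2) * A) ^ v * e) := by
          rw [pow_succ]
          ring
        rw [h9]
        nlinarith
  intro u h1 h2 h3
  have h4 : ∑ k ∈ (range n).filter Sl, SS n Sl c u k * x k =
      ∑ k ∈ (range n).filter Sl, TT Sl c u k * x k := by
    refine Finset.sum_congr rfl fun k _ => ?_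
    unfold SS
    rw [if_pos ⟨h2, h3⟩]
  rw [h4]
  refine (key u h1 h2).trans ?_
  exact mul_le_mul_of_nonneg_right (pow_le_pow_right₀ hb h2) he

end Pool.P4O
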